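import Pool.Agent.H.MP_f78535_pr.Grid

set_option autoImplicit false

open Set Filter MeasureTheory ProbabilityTheory Metric
open scoped Topology ENNReal Nat

namespace Pool.Agent.H.MP_f78535_pr

variable {Ω : Type*} [MeasurableSpace Ω] {P : Measure Ω} [IsProbabilityMeasure P]
  {d : ℕ} {β γ c : ℝ} {X : ℕ → Ω → E d × ℝ}

/-- dyadic scale -/
noncomputable def sc (k : ℕ) : ℝ := (1/2:ℝ) ^ k

lemma sc_pos (k : ℕ) : 0 < sc k := by unfold sc; positivity

lemma sc_le_one (k : ℕ) : sc k ≤ 1 := by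
  unfold sc; exact pow_le_one₀ (by norm_num) (by norm_num)

lemma sc_mul (R k : ℕ) : sc k * ((R * 2 ^ k : ℕ) : ℝ) = R := by
  unfold sc
  push_cast
  rw [div_pow, one_pow]
  field_simp

lemma sc_rpow (k : ℕ) (s : ℝ) : (sc k ^ 2) ^ (-s) = ((4:ℝ) ^ s) ^ k := by
  unfold sc
  rw [← pow_mul, mul_comm k 2, pow_mul]
  have : (1/2:ℝ) ^ 2 = (4:ℝ)⁻¹ := by norm_num
  rw [this, inv_pow, Real.inv_rpow (by positivity), Real.rpow_neg (by positivity), inv_inv,
    ← Real.rpow_natCast ((4:ℝ)) k, ← Real.rpow_natCast ((4:ℝ) ^ s) k, ← Real.rpow_mul (by norm_num),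
    ← Real.rpow_mul (by norm_num), mul_comm]

/-- Probability bound for an empty slab -/
lemma prob_slab_empty_le (hβ : (d:ℝ) / 2 + 1 < β) (hK : 0 < γ * c) :
    ∃ κ q : ℝ, 0 < κ ∧ 1 < q ∧ ∀ (k : ℕ) (z : Fin d → ℤ),
      intensity d β γ c (slab d (sc k) z) ≠ ⊤ ∧
      ENNReal.ofReal (Real.exp (-(intensity d β γ c (slab d (sc k) z)).toReal)) ≤
        ENNReal.ofReal (Real.exp (-(κ * q ^ k))) := by
  obtain ⟨κ, hκ, hslab⟩ := prob_slab_empty (d := d) hβ hK
  refine ⟨κ, (4:ℝ) ^ (β - (d:ℝ)/2 - 1), hκ, Real.one_lt_rpow (by norm_num) (by linarith), ?_⟩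
  intro k z
  obtain ⟨h1, h2⟩ := hslab (sc k) (sc_pos k) z
  refine ⟨h1, ?_⟩
  apply ENNReal.ofReal_le_ofReal
  rw [Real.exp_le_exp, neg_le_neg_iff]
  refine le_trans (le_of_eq ?_) h2
  rw [show (d:ℝ)/2 + 1 - β = -(β - (d:ℝ)/2 - 1) by ring, sc_rpow]

lemma cards_le (R k : ℕ) : (((cubes d (R * 2 ^ k)).card : ℕ) : ℝ) ≤ (2 * R + 1) ^ d * (2 ^ d) ^ k := by
  rw [card_cubes]
  push_cast
  rw [← pow_mul, mul_comm d k, pow_mul, ← mul_pow]
  gcongr
  have : (1:ℝ) ≤ 2 ^ k := one_le_pow₀ (by norm_num)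
  nlinarith

omit [IsProbabilityMeasure P] in
theorem cover_ae (hβ : (d:ℝ) / 2 + 1 < β) (hK : 0 < γ * c)
    (h : IsPoissonProcess X (intensity d β γ c) P) :
    ∀ᵐ w ∂P, ∀ x : E d, ∃ i, ‖x - (X i w).1‖ ^ 2 < -(X i w).2 := by
  obtain ⟨κ, q, hκ, hq, hslab⟩ := prob_slab_empty_le (d := d) hβ hK
  suffices H : ∀ R : ℕ, ∀ᵐ w ∂P, ∀ x : E d, ‖x‖ ≤ R → ∃ i, ‖x - (X i w).1‖ ^ 2 < -(X i w).2 by
    rw [← ae_all_iff] at H
    filter_upwards [H] with w hw x
    obtain ⟨R, hR⟩ := exists_nat_ge ‖x‖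
    exact hw R x hR
  intro R
  rw [ae_iff]
  set Z := {w | ¬ ∀ x : E d, ‖x‖ ≤ R → ∃ i, ‖x - (X i w).1‖ ^ 2 < -(X i w).2} with hZ
  obtain ⟨C, hC, hgeo⟩ := exists_geom_bound (b := (2:ℝ) ^ d) (q := q) (κ := κ) (by positivity) hq hκ
  have hbound : ∀ k : ℕ, P Z ≤ ENNReal.ofReal ((2 * R + 1) ^ d * (C * (1/2:ℝ) ^ k)) := by
    intro k
    have hsub : Z ⊆ ⋃ z ∈ cubes d (R * 2 ^ k), {w | count X (slab d (sc k) z) w = 0} := by
      intro w hw
      rw [hZ, mem_ofPred_eq] at hw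
      push Not at hw
      obtain ⟨x, hxR, hx⟩ := hw
      have hz : idx d (sc k) x ∈ cubes d (R * 2 ^ k) :=
        idx_mem_cubes (sc_pos k) (by rw [sc_mul]; exact hxR)
      refine mem_iUnion₂.2 ⟨_, hz, ?_⟩
      rw [mem_ofPred_eq, count, Set.encard_eq_zero, Set.eq_empty_iff_forall_notMem]
      intro i hi
      have h1 := slab_covers d hi (mem_cube_idx d (sc_pos k) x)
      have h2 := hx i
      have h3 : 0 ≤ sc k ^ 2 := by positivity
      linarith
    calc P Z ≤ P (⋃ z ∈ cubes d (R * 2 ^ k), {w | count X (slab d (sc k) z) w = 0}) :=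
          measure_mono hsub
      _ ≤ ∑ z ∈ cubes d (R * 2 ^ k), P {w | count X (slab d (sc k) z) w = 0} :=
          measure_biUnion_finset_le _ _
      _ ≤ ∑ z ∈ cubes d (R * 2 ^ k), ENNReal.ofReal (Real.exp (-(κ * q ^ k))) := by
          apply Finset.sum_le_sum
          intro z _
          rw [prob_count_zero h (measurableSet_slab d _ z) (hslab k z).1]
          exact (hslab k z).2
      _ = ENNReal.ofReal (((cubes d (R * 2 ^ k)).card : ℕ) * Real.exp (-(κ * q ^ k))) := by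
          rw [Finset.sum_const, nsmul_eq_mul, ENNReal.ofReal_mul (by positivity),
            ENNReal.ofReal_natCast]
      _ ≤ ENNReal.ofReal ((2 * R + 1) ^ d * (C * (1/2:ℝ) ^ k)) := by
          apply ENNReal.ofReal_le_ofReal
          calc (((cubes d (R * 2 ^ k)).card : ℕ) : ℝ) * Real.exp (-(κ * q ^ k))
              ≤ ((2 * R + 1) ^ d * (2 ^ d) ^ k) * Real.exp (-(κ * q ^ k)) := by
                gcongr; exact cards_le R k
            _ = (2 * R + 1) ^ d * ((2 ^ d) ^ k * Real.exp (-(κ * q ^ k))) := by ring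
            _ ≤ _ := mul_le_mul_of_nonneg_left (hgeo k) (by positivity)
  have hlim : Tendsto (fun k : ℕ => ENNReal.ofReal ((2 * R + 1) ^ d * (C * (1/2:ℝ) ^ k))) atTop
      (𝓝 0) := by
    rw [← ENNReal.ofReal_zero]
    apply ENNReal.tendsto_ofReal
    have h1 : Tendsto (fun k : ℕ => (1/2:ℝ) ^ k) atTop (𝓝 0) :=
      tendsto_pow_atTop_nhds_zero_of_lt_one (by norm_num) (by norm_num)
    have h2 := (h1.const_mul C).const_mul ((2 * (R:ℝ) + 1) ^ d)
    simpa using h2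
  exact le_antisymm (ge_of_tendsto' hlim hbound) (by simp)

theorem neg_ae (h : IsPoissonProcess X (intensity d β γ c) P) :
    ∀ᵐ w ∂P, ∀ i, (X i w).2 < 0 := by
  have hA : MeasurableSet {x : E d × ℝ | 0 ≤ x.2} := measurableSet_le measurable_const measurable_snd
  have hμ : intensity d β γ c {x : E d × ℝ | 0 ≤ x.2} = 0 := by
    rw [intensity_apply d β γ c hA, lintegral_eq_zero_iff']
    · refine Filter.Eventually.of_forall fun t => ?_
      simp only [mem_ofPred_eq, Pi.zero_apply]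
      by_cases ht : t < 0
      · have : ¬ 0 ≤ t := not_le.2 ht
        simp [this]
      · simp [dens, ht]
    · refine AEMeasurable.mul (measurable_dens _ _).aemeasurable ?_
      exact (measurable_measure_prodMk_right hA).aemeasurable
  have h1 := h.tsum_prob hA (by rw [hμ]; simp)
  rw [hμ, ENNReal.tsum_eq_zero] at h1
  rw [ae_all_iff]
  intro i
  rw [ae_iff]
  refine le_antisymm ((measure_mono ?_).trans (h1 i).le) (by simp)
  intro w hw
  simpa using hw

theorem locfin_ae (hβ : (d:ℝ) / 2 + 1 < β) (hK : 0 < γ * c)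
    (h : IsPoissonProcess X (intensity d β γ c) P) :
    ∀ᵐ w ∂P, ∀ ε > 0, ∀ ρ : ℝ,
      {i | ε < -(X i w).2 ∧ ‖(X i w).1‖ ≤ ρ + Real.sqrt (-(X i w).2)}.Finite := by
  have H : ∀ᵐ w ∂P, ∀ n N : ℕ, count X (region d (1 / ((n:ℝ) + 1)) N) w ≠ ⊤ := by
    rw [ae_all_iff]; intro n
    rw [ae_all_iff]; intro N
    exact h.ae_count_ne_top (measurableSet_region d _ _)
      (region_finite hβ hK (by positivity) (by positivity))
  filter_upwards [H] with w hw ε hε ρ
  obtain ⟨n, hn⟩ := exists_nat_one_div_lt hε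
  obtain ⟨N, hN⟩ := exists_nat_ge ρ
  have h1 := hw n N
  rw [count, Set.encard_ne_top_iff] at h1
  refine h1.subset ?_
  intro i hi
  refine ⟨hn.trans hi.1, hi.2.trans ?_⟩
  gcongr

/-- neighbouring cubes -/
noncomputable def neigh (d : ℕ) (z : Fin d → ℤ) : Finset (Fin d → ℤ) :=
  Fintype.piFinset fun j => Finset.Icc (z j - 1) (z j + 1)

lemma card_neigh (d : ℕ) (z : Fin d → ℤ) : (neigh d z).card = 3 ^ d := by
  simp only [neigh, Fintype.card_piFinset, Int.card_Icc]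
  have : ∀ x, (z x + 1 + 1 - (z x - 1)).toNat = 3 := by intro x; omega
  simp [this]

lemma idx_mem_neigh {l : ℝ} (hl : 0 < l) {v x : E d} (h : ‖x - v‖ < l) :
    idx d l x ∈ neigh d (idx d l v) := by
  rw [neigh, Fintype.mem_piFinset]
  intro j
  have h0 : |x j - v j| < l := by
    have := PiLp.norm_apply_le (x - v) j
    rw [Real.norm_eq_abs, PiLp.sub_apply] at this
    exact this.trans_lt h
  have h1 := (abs_lt.1 h0).1
  have h2 := (abs_lt.1 h0).2
  have a1 := Int.floor_le (x j / l)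
  have a2 := Int.lt_floor_add_one (x j / l)
  have b1 := Int.floor_le (v j / l)
  have b2 := Int.lt_floor_add_one (v j / l)
  have c1 : x j / l < v j / l + 1 := by
    rw [div_lt_iff₀ hl, add_mul, div_mul_cancel₀ _ hl.ne']; linarith
  have c2 : v j / l < x j / l + 1 := by
    rw [div_lt_iff₀ hl, add_mul, div_mul_cancel₀ _ hl.ne']; linarith
  rw [Finset.mem_Icc, idx, idx]
  constructor
  · have : (⌊v j / l⌋ : ℝ) < ⌊x j / l⌋ + 2 := by linarith
    have h3 : ⌊v j / l⌋ < ⌊x j / l⌋ + 2 := by exact_mod_cast this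
    omega
  · have : (⌊x j / l⌋ : ℝ) < ⌊v j / l⌋ + 2 := by linarith
    have h3 : ⌊x j / l⌋ < ⌊v j / l⌋ + 2 := by exact_mod_cast this
    omega

/-- shells of small weights -/
def shell (d : ℕ) (k : ℕ) (z : Fin d → ℤ) : Set (E d × ℝ) :=
  {x | x.1 ∈ cube d (sc k) z ∧ sc (k+1) ^ 2 < -x.2 ∧ -x.2 ≤ sc k ^ 2}

lemma measurableSet_shell (d k : ℕ) (z : Fin d → ℤ) : MeasurableSet (shell d k z) :=
  measurableSet_slab' d (measurableSet_cube d _ z) _ _

lemma shell_le (hβ : (d:ℝ) / 2 + 1 < β) (hK : 0 < γ * c) (k : ℕ) (z : Fin d → ℤ) :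
    intensity d β γ c (shell d k z) ≤ ENNReal.ofReal (γ * c * (4 ^ β) * ((4:ℝ) ^ β) ^ k) := by
  have hd0 : (0:ℝ) ≤ d := Nat.cast_nonneg d
  have hβ0 : 0 < β := by linarith [show (0:ℝ) ≤ (d:ℝ)/2 by positivity]
  have hk := sc_pos k
  have hk1 := sc_pos (k+1)
  have hle : sc (k+1) ≤ sc k := by
    unfold sc; rw [pow_succ]; nlinarith [show (0:ℝ) < (1/2)^k by positivity]
  have h1 := slab_le d β γ c hβ0 hK (measurableSet_cube d (sc k) z) (a := sc (k+1) ^ 2)
    (b := sc k ^ 2) (by positivity) (by gcongr)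
  refine h1.trans ?_
  have hdiff : 0 ≤ sc k ^ 2 - sc (k+1) ^ 2 := by
    have : sc (k+1) ^ 2 ≤ sc k ^ 2 := by gcongr
    linarith
  rw [volume_cube d hk.le, ← ENNReal.ofReal_mul (by positivity)]
  apply ENNReal.ofReal_le_ofReal
  have e1 : (sc (k+1) ^ 2) ^ (-β) = 4 ^ β * ((4:ℝ) ^ β) ^ k := by
    rw [sc_rpow, pow_succ]; ring
  have e2 : sc k ^ 2 - sc (k+1) ^ 2 ≤ 1 := by
    have : sc k ^ 2 ≤ 1 := pow_le_one₀ hk.le (sc_le_one k)
    have : 0 ≤ sc (k+1) ^ 2 := by positivity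
    linarith
  have e3 : sc k ^ d ≤ 1 := pow_le_one₀ hk.le (sc_le_one k)
  rw [e1]
  calc γ * c * (sc k ^ 2 - sc (k + 1) ^ 2) * (4 ^ β * ((4:ℝ) ^ β) ^ k) * sc k ^ d
      ≤ γ * c * 1 * (4 ^ β * ((4:ℝ) ^ β) ^ k) * 1 := by gcongr
    _ = _ := by ring

lemma disjoint_shell_slab (d k : ℕ) (z z' : Fin d → ℤ) :
    Disjoint (shell d k z) (slab d (sc k) z') := by
  rw [Set.disjoint_left]
  intro x hx hx'
  have h1 := hx.2.2
  have h2 := hx'.2.1
  have h3 : 0 ≤ sc k ^ 2 := by positivity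
  have h4 : (0:ℝ) ≤ d := Nat.cast_nonneg d
  nlinarith [mul_nonneg h4 h3]

/-- every positive weight at most one is in a shell -/
lemma exists_shell {t : ℝ} (ht : 0 < t) (ht1 : t ≤ 1) : ∃ k : ℕ, sc (k+1) ^ 2 < t ∧ t ≤ sc k ^ 2 := by
  have hlim : Tendsto (fun k : ℕ => sc k ^ 2) atTop (𝓝 0) := by
    have h1 : Tendsto sc atTop (𝓝 0) :=
      tendsto_pow_atTop_nhds_zero_of_lt_one (by norm_num) (by norm_num)
    simpa using h1.pow 2
  have hex : ∃ k : ℕ, sc k ^ 2 < t := (hlim.eventually (gt_mem_nhds ht)).exists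
  classical
  have hne : Nat.find hex ≠ 0 := by
    intro h0
    have := Nat.find_spec hex
    rw [h0] at this
    simp [sc] at this
    linarith
  obtain ⟨k, hk⟩ := Nat.exists_eq_succ_of_ne_zero hne
  refine ⟨k, ?_, ?_⟩
  · have := Nat.find_spec hex
    rwa [hk] at this
  · have := Nat.find_min hex (m := k) (by omega)
    exact not_lt.1 this

/-- The mean number of nonempty cells with nucleus in a bounded set is finite. -/
theorem den_finite (hβ : (d:ℝ) / 2 + 1 < β) (hK : 0 < γ * c)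
    (h : IsPoissonProcess X (intensity d β γ c) P) {B : Set (E d)} (hB : MeasurableSet B)
    (hBb : Bornology.IsBounded B) :
    ∑' i, P {w | (X i w).1 ∈ B ∧ (laguerreCell (Set.range fun j => X j w) (X i w)).Nonempty} < ⊤ := by
  obtain ⟨κ, q, hκ, hq, hslab⟩ := prob_slab_empty_le (d := d) (β := β) (γ := γ) (c := c) hβ hK
  obtain ⟨R, hR⟩ : ∃ R : ℕ, ∀ v ∈ B, ‖v‖ ≤ R := by
    obtain ⟨r, hr⟩ := hBb.exists_norm_le
    obtain ⟨R, hR⟩ := exists_nat_ge r
    exact ⟨R, fun v hv => (hr v hv).trans hR⟩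
  set Top : Set (E d × ℝ) := {x | x.1 ∈ B ∧ 1 < -x.2} with hTop
  have hTopm : MeasurableSet Top :=
    (measurable_fst hB).inter (measurableSet_lt measurable_const measurable_snd.neg)
  have hTopfin : intensity d β γ c Top ≠ ⊤ := by
    refine ((measure_mono ?_).trans_lt (lt_top_iff_ne_top.2
      (region_finite (d := d) hβ hK (τ := 1) (ρ := R) one_pos (by positivity)))).ne
    intro x hx
    exact ⟨hx.2, (hR _ hx.1).trans (by have := Real.sqrt_nonneg (-x.2); linarith)⟩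
  have hgood : ∀ᵐ w ∂P, (∀ x : E d, ∃ i, ‖x - (X i w).1‖ ^ 2 < -(X i w).2) ∧
      ∀ i, (X i w).2 < 0 := (cover_ae hβ hK h).and (neg_ae h)
  -- covering of the event
  have hcov : ∀ i, P {w | (X i w).1 ∈ B ∧
      (laguerreCell (Set.range fun j => X j w) (X i w)).Nonempty} ≤
      P {w | X i w ∈ Top} + ∑' k : ℕ, ∑ z' ∈ cubes d (R * 2 ^ k), ∑ z ∈ neigh d z',
        P {w | X i w ∈ shell d k z' ∧ count X (slab d (sc k) z) w = 0} := by
    intro i
    have hsub : ∀ᵐ w ∂P, w ∈ {w | (X i w).1 ∈ B ∧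
      (laguerreCell (Set.range fun j => X j w) (X i w)).Nonempty} →
      w ∈ {w | X i w ∈ Top} ∪ ⋃ k : ℕ, ⋃ z' ∈ cubes d (R * 2 ^ k), ⋃ z ∈ neigh d z',
        {w | X i w ∈ shell d k z' ∧ count X (slab d (sc k) z) w = 0} := by
      filter_upwards [hgood] with w hw
      rintro ⟨hBi, x0, hx0⟩
      obtain ⟨hw1, hw2⟩ := hw
      by_cases ht : 1 < -(X i w).2
      · left; exact ⟨hBi, ht⟩
      right
      have ht0 : 0 < -(X i w).2 := by have := hw2 i; linarith
      obtain ⟨k, hk1, hk2⟩ := exists_shell ht0 (not_lt.1 ht)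
      have hz' : idx d (sc k) (X i w).1 ∈ cubes d (R * 2 ^ k) :=
        idx_mem_cubes (sc_pos k) (by rw [sc_mul]; exact hR _ hBi)
      have hdist : ‖x0 - (X i w).1‖ < sc k := by
        obtain ⟨j, hj⟩ := hw1 x0
        have h1 := hx0 (X j w) ⟨j, rfl⟩
        have h2 : ‖x0 - (X i w).1‖ ^ 2 < sc k ^ 2 := by linarith
        exact lt_of_pow_lt_pow_left₀ 2 (sc_pos k).le h2
      have hz := idx_mem_neigh (sc_pos k) hdist
      refine mem_iUnion.2 ⟨k, mem_iUnion₂.2 ⟨_, hz', mem_iUnion₂.2 ⟨_, hz, ?_, ?_⟩⟩⟩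
      · exact ⟨mem_cube_idx d (sc_pos k) _, hk1, hk2⟩
      · rw [count, Set.encard_eq_zero, Set.eq_empty_iff_forall_notMem]
        intro j hj
        have h1 := slab_covers d hj (mem_cube_idx d (sc_pos k) x0)
        have h2 := hx0 (X j w) ⟨j, rfl⟩
        have h3 : 0 ≤ ‖x0 - (X i w).1‖ ^ 2 := by positivity
        linarith
    calc P {w | (X i w).1 ∈ B ∧ (laguerreCell (Set.range fun j => X j w) (X i w)).Nonempty}
        ≤ P ({w | X i w ∈ Top} ∪ ⋃ k : ℕ, ⋃ z' ∈ cubes d (R * 2 ^ k), ⋃ z ∈ neigh d z',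
        {w | X i w ∈ shell d k z' ∧ count X (slab d (sc k) z) w = 0}) := measure_mono_ae hsub
      _ ≤ P {w | X i w ∈ Top} + P (⋃ k : ℕ, ⋃ z' ∈ cubes d (R * 2 ^ k), ⋃ z ∈ neigh d z',
        {w | X i w ∈ shell d k z' ∧ count X (slab d (sc k) z) w = 0}) := measure_union_le _ _
      _ ≤ _ := by
        gcongr
        refine (measure_iUnion_le _).trans ?_
        refine ENNReal.tsum_le_tsum fun k => ?_
        refine (measure_biUnion_finset_le _ _).trans ?_
        refine Finset.sum_le_sum fun z' _ => ?_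
        exact measure_biUnion_finset_le _ _
  obtain ⟨C, hC, hgeo⟩ := exists_geom_bound (b := (2:ℝ) ^ d * 4 ^ β) (q := q) (κ := κ)
    (by positivity) hq hκ
  set A0 : ℝ := (2 * R + 1) ^ d * 3 ^ d * (γ * c * 4 ^ β) with hA0
  have hA00 : 0 ≤ A0 := by positivity
  have hterm : ∀ k : ℕ, ∑' i, ∑ z' ∈ cubes d (R * 2 ^ k), ∑ z ∈ neigh d z',
        P {w | X i w ∈ shell d k z' ∧ count X (slab d (sc k) z) w = 0} ≤
        ENNReal.ofReal (A0 * (C * (1/2:ℝ) ^ k)) := by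
    intro k
    rw [Summable.tsum_finsetSum (fun _ _ => ENNReal.summable)]
    have h1 : ∀ z' ∈ cubes d (R * 2 ^ k), ∑' i, ∑ z ∈ neigh d z',
        P {w | X i w ∈ shell d k z' ∧ count X (slab d (sc k) z) w = 0} ≤
        ENNReal.ofReal (3 ^ d * ((γ * c * (4 ^ β) * ((4:ℝ) ^ β) ^ k) * Real.exp (-(κ * q ^ k)))) := by
      intro z' _
      rw [Summable.tsum_finsetSum (fun _ _ => ENNReal.summable)]
      have h2 : ∀ z ∈ neigh d z', ∑' i,
        P {w | X i w ∈ shell d k z' ∧ count X (slab d (sc k) z) w = 0} ≤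
        ENNReal.ofReal ((γ * c * (4 ^ β) * ((4:ℝ) ^ β) ^ k) * Real.exp (-(κ * q ^ k))) := by
        intro z _
        rw [h.tsum_prob_inter (measurableSet_shell d k z') (measurableSet_slab d _ z)
          (disjoint_shell_slab d k z' z)
          ((shell_le hβ hK k z').trans_lt ENNReal.ofReal_lt_top).ne (hslab k z).1,
          ENNReal.ofReal_mul (by positivity)]
        exact mul_le_mul' (shell_le hβ hK k z') (hslab k z).2
      refine (Finset.sum_le_sum h2).trans ?_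
      rw [Finset.sum_const, card_neigh, nsmul_eq_mul, ENNReal.ofReal_mul (p := (3:ℝ) ^ d)
        (by positivity)]
      apply le_of_eq
      congr 1
      rw [← ENNReal.ofReal_natCast]
      push_cast
      rfl
    refine (Finset.sum_le_sum h1).trans ?_
    rw [Finset.sum_const, nsmul_eq_mul, ← ENNReal.ofReal_natCast, ← ENNReal.ofReal_mul (by positivity)]
    apply ENNReal.ofReal_le_ofReal
    calc (((cubes d (R * 2 ^ k)).card : ℕ) : ℝ) *
          (3 ^ d * ((γ * c * (4 ^ β) * ((4:ℝ) ^ β) ^ k) * Real.exp (-(κ * q ^ k))))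
        ≤ ((2 * R + 1) ^ d * (2 ^ d) ^ k) *
          (3 ^ d * ((γ * c * (4 ^ β) * ((4:ℝ) ^ β) ^ k) * Real.exp (-(κ * q ^ k)))) := by
          gcongr; exact cards_le R k
      _ = A0 * (((2:ℝ) ^ d * 4 ^ β) ^ k * Real.exp (-(κ * q ^ k))) := by
          rw [hA0, mul_pow]; ring
      _ ≤ _ := mul_le_mul_of_nonneg_left (hgeo k) hA00
  calc ∑' i, P {w | (X i w).1 ∈ B ∧ (laguerreCell (Set.range fun j => X j w) (X i w)).Nonempty}
      ≤ ∑' i, (P {w | X i w ∈ Top} + ∑' k : ℕ, ∑ z' ∈ cubes d (R * 2 ^ k), ∑ z ∈ neigh d z',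
        P {w | X i w ∈ shell d k z' ∧ count X (slab d (sc k) z) w = 0}) :=
        ENNReal.tsum_le_tsum hcov
    _ = intensity d β γ c Top + ∑' k : ℕ, ∑' i, ∑ z' ∈ cubes d (R * 2 ^ k), ∑ z ∈ neigh d z',
        P {w | X i w ∈ shell d k z' ∧ count X (slab d (sc k) z) w = 0} := by
        rw [ENNReal.tsum_add, h.tsum_prob hTopm hTopfin, ENNReal.tsum_comm]
    _ ≤ intensity d β γ c Top + ∑' k : ℕ, ENNReal.ofReal (A0 * (C * (1/2:ℝ) ^ k)) := by
        gcongr with k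
        exact hterm k
    _ < ⊤ := by
        rw [ENNReal.add_lt_top]
        refine ⟨lt_top_iff_ne_top.2 hTopfin, ?_⟩
        have hs : Summable fun k : ℕ => A0 * (C * (1/2:ℝ) ^ k) :=
          ((summable_geometric_of_lt_one (by norm_num) (by norm_num)).mul_left C).mul_left A0
        rw [← ENNReal.ofReal_tsum_of_nonneg (fun k => by positivity) hs]
        exact ENNReal.ofReal_lt_top

end Pool.Agent.H.MP_f78535_pr
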