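import Mathlib

set_option autoImplicit false

open Set MeasureTheory ProbabilityTheory
open scoped ENNReal Nat

namespace Pool.Agent.H.MP_f78535_pr

/-! Definitions for the facet number of the typical cell of the beta'-Voronoi tessellation. -/

section Geometry

variable {F : Type*} [NormedAddCommGroup F] [InnerProductSpace ℝ F]

/-- The facets of a convex set `P`: its nonempty exposed faces of codimension one. -/
def facetsOf (P : Set F) : Set (Set F) :=
  {G | G.Nonempty ∧ IsExposed ℝ P G ∧
    Module.finrank ℝ (vectorSpan ℝ G) + 1 = Module.finrank ℝ F}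

/-- `P` is a polytope, i.e. the convex hull of a finite set, with exactly `n` facets. -/
def IsPolytopeWithFacets (n : ℕ) (P : Set F) : Prop :=
  (∃ T : Set F, T.Finite ∧ P = convexHull ℝ T) ∧ (facetsOf P).encard = n

/-- The Laguerre (power) cell of the weighted point `x = (v, h)` with respect to the set `η` of
weighted points: all `w` with `‖w - v‖² + h ≤ ‖w - v'‖² + h'` for all `(v', h') ∈ η`. -/
def laguerreCell (η : Set (F × ℝ)) (x : F × ℝ) : Set F :=
  {w | ∀ y ∈ η, ‖w - x.1‖ ^ 2 + x.2 ≤ ‖w - y.1‖ ^ 2 + y.2}

end Geometry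

/-- Intensity measure of the beta'-process: `γ c (-h)^{-β} dv dh` on `ℝ^d × (-∞,0)`. -/
noncomputable def intensity (d : ℕ) (β γ c : ℝ) : Measure (EuclideanSpace ℝ (Fin d) × ℝ) :=
  (volume : Measure (EuclideanSpace ℝ (Fin d) × ℝ)).withDensity
    fun x => if x.2 < 0 then ENNReal.ofReal (γ * c * (-x.2) ^ (-β)) else 0

section Process

variable {Ω S : Type*} [MeasurableSpace Ω] [MeasurableSpace S]

/-- The number of indices `i` with `X i w ∈ B`. -/
noncomputable def count (X : ℕ → Ω → S) (B : Set S) (w : Ω) : ℕ∞ := {i | X i w ∈ B}.encard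

/-- `X 0, X 1, …` is an enumeration (by random elements, without repetitions) of a Poisson point
process on `S` with intensity measure `μ`: the number of points in a measurable set of finite
measure is Poisson distributed, and the numbers of points in pairwise disjoint measurable sets are
independent. -/
structure IsPoissonProcess (X : ℕ → Ω → S) (μ : Measure S) (P : Measure Ω) : Prop where
  measurable : ∀ i, Measurable (X i)
  injective : ∀ᵐ w ∂P, Function.Injective fun i => X i w
  law : ∀ B : Set S, MeasurableSet B → μ B ≠ ⊤ → ∀ n : ℕ,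
    P {w | count X B w = n} = ENNReal.ofReal (Real.exp (-(μ B).toReal) * (μ B).toReal ^ n / n !)
  indep : ∀ (n : ℕ) (B : Fin n → Set S), (∀ j, MeasurableSet (B j)) →
    Pairwise (Function.onFun Disjoint B) → iIndepFun (fun j => count X (B j)) P

variable {d : ℕ}

/-- The cell of the `i`-th point of the process. -/
def cell (X : ℕ → Ω → EuclideanSpace ℝ (Fin d) × ℝ) (w : Ω) (i : ℕ) :
    Set (EuclideanSpace ℝ (Fin d)) :=
  laguerreCell (Set.range fun j => X j w) (X i w)

/-- Mean number of points of the process with nucleus in `B` and nonempty cell. -/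
noncomputable def meanCells (P : Measure Ω) (X : ℕ → Ω → EuclideanSpace ℝ (Fin d) × ℝ)
    (B : Set (EuclideanSpace ℝ (Fin d))) : ℝ≥0∞ :=
  ∑' i, P {w | (X i w).1 ∈ B ∧ (cell X w i).Nonempty}

/-- Mean number of points of the process with nucleus in `B` whose cell is nonempty and is a
polytope with exactly `n` facets. -/
noncomputable def meanFacetCells (P : Measure Ω) (X : ℕ → Ω → EuclideanSpace ℝ (Fin d) × ℝ)
    (B : Set (EuclideanSpace ℝ (Fin d))) (n : ℕ) : ℝ≥0∞ :=
  ∑' i, P {w | (X i w).1 ∈ B ∧ (cell X w i).Nonempty ∧ IsPolytopeWithFacets n (cell X w i)}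

/-- The probability that the typical cell is a polytope with exactly `n` facets (observation
window `B`). -/
noncomputable def typicalFacetProb (P : Measure Ω) (X : ℕ → Ω → EuclideanSpace ℝ (Fin d) × ℝ)
    (B : Set (EuclideanSpace ℝ (Fin d))) (n : ℕ) : ℝ :=
  (meanFacetCells P X B n / meanCells P X B).toReal

end Process

end Pool.Agent.H.MP_f78535_pr
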