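import Mathlib

set_option autoImplicit false

open Set Filter Metric
open scoped Topology InnerProductSpace

namespace Pool.Agent.H.MP_f78535_pr

variable {F : Type*} [NormedAddCommGroup F] [InnerProductSpace ℝ F] [FiniteDimensional ℝ F]

/-- well separated directions in dimension at least two -/
theorem exists_dirs (hd : 2 ≤ Module.finrank ℝ F) {m : ℕ} (hm : 0 < m) {T K : ℝ} (hK : 0 < K)
    (hT : 16 * (m:ℝ) ^ 2 * K < T) :
    ∃ u : Fin m → F, (∀ l, ‖u l‖ = 1) ∧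
      ∀ l l', l ≠ l' → ∀ s ∈ Set.Icc (Real.sqrt (T - K)) (Real.sqrt T),
        ∀ t ∈ Set.Icc (Real.sqrt (T - K)) (Real.sqrt T),
      ‖(1/2:ℝ) • (s • u l + t • u l')‖ < Real.sqrt (T - K) := by
  have hm' : (0:ℝ) < m := by exact_mod_cast hm
  have hm1 : (1:ℝ) ≤ m := by exact_mod_cast hm
  have hTK : 0 < T - K := by
    have h1 : (1:ℝ) ≤ (m:ℝ) ^ 2 := by nlinarith
    have h2 : K ≤ (m:ℝ) ^ 2 * K := by nlinarith
    nlinarith
  have hT0 : 0 < T := by linarith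
  -- an orthonormal pair
  let B := stdOrthonormalBasis ℝ F
  let i0 : Fin (Module.finrank ℝ F) := ⟨0, by omega⟩
  let i1 : Fin (Module.finrank ℝ F) := ⟨1, by omega⟩
  have hi : i0 ≠ i1 := by simp [i0, i1]
  set e := B i0 with he
  set f := B i1 with hf
  have hee : ⟪e, e⟫_ℝ = 1 := by
    rw [real_inner_self_eq_norm_sq, B.norm_eq_one]; norm_num
  have hff : ⟪f, f⟫_ℝ = 1 := by
    rw [real_inner_self_eq_norm_sq, B.norm_eq_one]; norm_num
  have hef : ⟪e, f⟫_ℝ = 0 := B.inner_eq_zero hi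
  have hfe : ⟪f, e⟫_ℝ = 0 := B.inner_eq_zero hi.symm
  let x : Fin m → ℝ := fun l => (l:ℝ) / m
  let n : Fin m → ℝ := fun l => Real.sqrt (1 + x l ^ 2)
  have hn : ∀ l, n l ^ 2 = 1 + x l ^ 2 := fun l => Real.sq_sqrt (by positivity)
  have hn0 : ∀ l, 0 < n l := fun l => Real.sqrt_pos.2 (by positivity)
  let u : Fin m → F := fun l => (n l)⁻¹ • (e + x l • f)
  have hinner : ∀ l l', ⟪u l, u l'⟫_ℝ = (1 + x l * x l') / (n l * n l') := by
    intro l l'
    simp only [u, inner_smul_left, inner_smul_right, inner_add_left, inner_add_right, hee, hff,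
      hef, hfe]
    have := (hn0 l).ne'
    have := (hn0 l').ne'
    simp
    field_simp
  have hx0 : ∀ l, 0 ≤ x l := fun l => by positivity
  have hx1 : ∀ l, x l ≤ 1 := fun l => by
    simp only [x]
    rw [div_le_one hm']
    exact_mod_cast l.2.le
  have hnorm : ∀ l, ‖u l‖ = 1 := by
    intro l
    have h1 : ‖u l‖ ^ 2 = 1 := by
      rw [← real_inner_self_eq_norm_sq, hinner, ← sq (n l), hn, ← sq (x l)]
      exact div_self (by positivity)
    nlinarith [norm_nonneg (u l)]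
  refine ⟨u, hnorm, ?_⟩
  intro l l' hne s hs t ht
  set c := ⟪u l, u l'⟫_ℝ with hc
  have hc0 : 0 ≤ c := by
    rw [hc, hinner]
    have := hx0 l; have := hx0 l'; have := hn0 l; have := hn0 l'
    positivity
  -- separation
  have hxx : (1 / (m:ℝ)) ^ 2 ≤ (x l - x l') ^ 2 := by
    have h1 : x l - x l' = ((l:ℝ) - l') / m := by simp only [x]; ring
    rw [h1, div_pow, div_pow, one_pow]
    have h2 : (l : ℤ) ≠ (l' : ℤ) := by
      intro h; apply hne; ext; exact_mod_cast h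
    have h3 : (1:ℤ) ≤ ((l:ℤ) - l') ^ 2 := by
      have : (l:ℤ) - l' ≠ 0 := sub_ne_zero.2 h2
      have : 0 < ((l:ℤ) - l') ^ 2 := by positivity
      omega
    have h4 : (1:ℝ) ≤ ((l:ℝ) - l') ^ 2 := by exact_mod_cast h3
    gcongr
  have hc2 : c ^ 2 ≤ 1 - 1 / (4 * (m:ℝ) ^ 2) := by
    rw [hc, hinner, div_pow, mul_pow, hn, hn]
    have h1 : (1 + x l * x l') ^ 2 = (1 + x l ^ 2) * (1 + x l' ^ 2) - (x l - x l') ^ 2 := by ring
    rw [h1, sub_div, div_self (by positivity)]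
    have h2 : 1 / (4 * (m:ℝ) ^ 2) ≤ (x l - x l') ^ 2 / ((1 + x l ^ 2) * (1 + x l' ^ 2)) := by
      rw [le_div_iff₀ (by positivity)]
      have h3 : (1 + x l ^ 2) * (1 + x l' ^ 2) ≤ 4 := by
        have a1 : x l ^ 2 ≤ 1 := by nlinarith [hx0 l, hx1 l]
        have a2 : x l' ^ 2 ≤ 1 := by nlinarith [hx0 l', hx1 l']
        nlinarith [sq_nonneg (x l), sq_nonneg (x l')]
      calc 1 / (4 * (m:ℝ) ^ 2) * ((1 + x l ^ 2) * (1 + x l' ^ 2))
          ≤ 1 / (4 * (m:ℝ) ^ 2) * 4 := by gcongr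
        _ = (1 / (m:ℝ)) ^ 2 := by field_simp
        _ ≤ _ := hxx
    linarith
  have hc1 : c ≤ 1 - 1 / (8 * (m:ℝ) ^ 2) := by
    have h1 : (1 - 1 / (8 * (m:ℝ) ^ 2)) ^ 2 ≥ 1 - 1 / (4 * (m:ℝ) ^ 2) := by
      have : (1 - 1 / (8 * (m:ℝ) ^ 2)) ^ 2 = 1 - 1 / (4 * (m:ℝ) ^ 2) + (1 / (8 * (m:ℝ) ^ 2)) ^ 2 := by
        field_simp; ring
      rw [this]
      have := sq_nonneg (1 / (8 * (m:ℝ) ^ 2))
      linarith
    have h2 : 0 ≤ 1 - 1 / (8 * (m:ℝ) ^ 2) := by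
      rw [sub_nonneg, div_le_one (by positivity)]
      nlinarith
    exact abs_le_of_sq_le_sq' (hc2.trans h1) h2 |>.2
  have hs0 : 0 ≤ s := (Real.sqrt_nonneg _).trans hs.1
  have ht0 : 0 ≤ t := (Real.sqrt_nonneg _).trans ht.1
  have hs2 : s ^ 2 ≤ T := by
    calc s ^ 2 ≤ Real.sqrt T ^ 2 := by gcongr; exact hs.2
      _ = T := Real.sq_sqrt hT0.le
  have ht2 : t ^ 2 ≤ T := by
    calc t ^ 2 ≤ Real.sqrt T ^ 2 := by gcongr; exact ht.2
      _ = T := Real.sq_sqrt hT0.le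
  have hst : s * t ≤ T := by nlinarith [sq_nonneg (s - t)]
  rw [Real.lt_sqrt (norm_nonneg _)]
  have hexp : ‖(1/2:ℝ) • (s • u l + t • u l')‖ ^ 2 = (s ^ 2 + t ^ 2 + 2 * (s * t) * c) / 4 := by
    rw [← real_inner_self_eq_norm_sq]
    simp only [inner_smul_left, inner_smul_right, inner_add_left, inner_add_right]
    rw [real_inner_self_eq_norm_sq, real_inner_self_eq_norm_sq, hnorm, hnorm,
      real_inner_comm (u l) (u l'), ← hc]
    simp
    ring
  rw [hexp]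
  have h1 : (s * t) * c ≤ T * (1 - 1 / (8 * (m:ℝ) ^ 2)) := by
    calc (s * t) * c ≤ T * c := by gcongr
      _ ≤ _ := by gcongr
  have h2 : K < T * (1 / (16 * (m:ℝ) ^ 2)) := by
    rw [mul_one_div, lt_div_iff₀ (by positivity)]; linarith
  have h3 : T * (1 / (16 * (m:ℝ) ^ 2)) = T * (1 / (8 * (m:ℝ) ^ 2)) / 2 := by
    field_simp; norm_num
  linarith

end Pool.Agent.H.MP_f78535_pr
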