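import Pool.Agent.H.MP_f78535_pr.Poly
import Pool.Agent.H.MP_f78535_pr.Dirs

set_option autoImplicit false

open Set Filter Metric
open scoped Topology InnerProductSpace

namespace Pool.Agent.H.MP_f78535_pr

variable {F : Type*} [NormedAddCommGroup F] [InnerProductSpace ℝ F]

lemma halfspace_iff (x y : F × ℝ) (w : F) :
    ‖w - x.1‖ ^ 2 + x.2 ≤ ‖w - y.1‖ ^ 2 + y.2 ↔
      ⟪(2:ℝ) • (y.1 - x.1), w⟫_ℝ ≤ ‖y.1‖ ^ 2 - ‖x.1‖ ^ 2 + y.2 - x.2 := by
  rw [norm_sub_sq_real, norm_sub_sq_real, inner_smul_left, inner_sub_left,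
    real_inner_comm w y.1, real_inner_comm w x.1]
  simp only [conj_trivial]
  constructor <;> intro h <;> linarith

theorem cell_geometry [FiniteDimensional ℝ F] (hd : 2 ≤ Module.finrank ℝ F)
    (η : Set (F × ℝ)) (x : F × ℝ) (hx : x ∈ η) {m : ℕ} (hm : 0 < m) {K : ℝ} (hK : 0 < K)
    (hT : 16 * (m:ℝ) ^ 2 * K < -x.2)
    (h1 : ∀ y ∈ η, y ≠ x → 0 ≤ -y.2 ∧ (-y.2 ≤ K ∨
      Real.sqrt (-x.2) + Real.sqrt (-y.2) ≤ ‖y.1 - x.1‖))
    (h2 : ∀ w : F, ∃ y ∈ η, ‖w - y.1‖ ^ 2 < -y.2)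
    (h3 : ∀ ε > 0, ∀ ρ : ℝ, {y ∈ η | ε < -y.2 ∧ ‖y.1‖ ≤ ρ + Real.sqrt (-y.2)}.Finite) :
    (∃ T : Set F, T.Finite ∧ laguerreCell η x = convexHull ℝ T) ∧
    (facetsOf (laguerreCell η x)).Finite ∧ m ≤ (facetsOf (laguerreCell η x)).ncard := by
  classical
  set T := -x.2 with hTdef
  set v := x.1 with hv
  have hm1 : (1:ℝ) ≤ m := by exact_mod_cast hm
  have hKT : K < T := by
    have h1 : (1:ℝ) ≤ (m:ℝ) ^ 2 := by nlinarith
    have h2 : K ≤ (m:ℝ) ^ 2 * K := by nlinarith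
    nlinarith
  have hT0 : 0 < T := by linarith
  have hx2 : x.2 = -T := by rw [hTdef]; ring
  -- inner ball
  have hin : closedBall v (Real.sqrt (T - K)) ⊆ laguerreCell η x := by
    intro w hw y hy
    rw [mem_closedBall, dist_eq_norm] at hw
    have hw2 : ‖w - v‖ ^ 2 ≤ T - K := by
      calc ‖w - v‖ ^ 2 ≤ Real.sqrt (T - K) ^ 2 := by gcongr
        _ = T - K := Real.sq_sqrt (by linarith)
    by_cases hyx : y = x
    · rw [hyx]
    obtain ⟨hy0, hy'⟩ := h1 y hy hyx
    rw [← hv, hx2]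
    rcases hy' with hy' | hy'
    · have := sq_nonneg ‖w - y.1‖
      linarith
    · have hwT : ‖w - v‖ ≤ Real.sqrt T := hw.trans (Real.sqrt_le_sqrt (by linarith))
      have h4 : Real.sqrt (-y.2) ≤ ‖w - y.1‖ := by
        have h5 : ‖y.1 - v‖ ≤ ‖w - v‖ + ‖w - y.1‖ := by
          have : y.1 - v = (w - v) - (w - y.1) := by abel
          rw [this]; exact norm_sub_le _ _
        linarith
      have h6 : -y.2 ≤ ‖w - y.1‖ ^ 2 := by
        calc -y.2 = Real.sqrt (-y.2) ^ 2 := (Real.sq_sqrt hy0).symm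
          _ ≤ _ := by gcongr
      linarith
  have hvcell : v ∈ laguerreCell η x := hin (mem_closedBall_self (Real.sqrt_nonneg _))
  -- uniform covering of the ball of radius `2 √T`
  set D := closedBall v (2 * Real.sqrt T) with hD
  haveI : ProperSpace F := FiniteDimensional.proper ℝ F
  have hDc : IsCompact D := isCompact_closedBall _ _
  obtain ⟨J0, ε, hε, hJ0η, hJ0⟩ : ∃ (J0 : Finset (F × ℝ)) (ε : ℝ), 0 < ε ∧ (∀ y ∈ J0, y ∈ η) ∧
      ∀ w ∈ D, ∃ y ∈ J0, ‖w - y.1‖ ^ 2 + y.2 < -ε := by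
    let U : η × ℕ → Set F := fun p => {w | ‖w - (p.1 : F × ℝ).1‖ ^ 2 + (p.1 : F × ℝ).2 <
      -(1 / ((p.2:ℝ) + 1))}
    have hUo : ∀ p, IsOpen (U p) := fun p => isOpen_lt (by fun_prop) continuous_const
    have hcov : D ⊆ ⋃ p, U p := by
      intro w _
      obtain ⟨y, hy, hwy⟩ := h2 w
      obtain ⟨n, hn⟩ := exists_nat_one_div_lt (show (0:ℝ) < -y.2 - ‖w - y.1‖ ^ 2 by linarith)
      refine mem_iUnion.2 ⟨(⟨y, hy⟩, n), ?_⟩
      simp only [U, Set.mem_ofPred_eq]
      linarith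
    obtain ⟨t, ht⟩ := hDc.elim_finite_subcover U hUo hcov
    refine ⟨t.image fun p => (p.1 : F × ℝ), 1 / ((t.sup fun p => p.2 : ℕ) + 1 : ℝ),
      by positivity, ?_, ?_⟩
    · intro y hy
      obtain ⟨p, _, rfl⟩ := Finset.mem_image.1 hy
      exact p.1.2
    · intro w hw
      obtain ⟨p, hp, hwp⟩ := mem_iUnion₂.1 (ht hw)
      refine ⟨(p.1 : F × ℝ), Finset.mem_image.2 ⟨p, hp, rfl⟩, ?_⟩
      simp only [U, Set.mem_ofPred_eq] at hwp
      have h7 : (p.2 : ℝ) ≤ ((t.sup fun p => p.2 : ℕ) : ℝ) := by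
        exact_mod_cast Finset.le_sup (f := fun p : η × ℕ => p.2) hp
      have h8 : 1 / (((t.sup fun p => p.2 : ℕ) : ℝ) + 1) ≤ 1 / ((p.2:ℝ) + 1) := by
        gcongr
      linarith
  -- the relevant points
  have hJ1fin := h3 ε hε (‖v‖ + Real.sqrt T)
  set J1 := hJ1fin.toFinset with hJ1
  let a : F × ℝ → F := fun y => (2:ℝ) • (y.1 - x.1)
  let b : F × ℝ → ℝ := fun y => ‖y.1‖ ^ 2 - ‖x.1‖ ^ 2 + y.2 - x.2
  have hclaimA : ∀ w ∈ D, (∀ y ∈ J0, ‖w - v‖ ^ 2 + x.2 ≤ ‖w - y.1‖ ^ 2 + y.2) →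
      ‖w - v‖ ^ 2 < T - ε := by
    intro w hw hy
    obtain ⟨y, hyJ, hyw⟩ := hJ0 w hw
    have := hy y hyJ
    linarith
  have hcell : laguerreCell η x = polyhedron (J0 ∪ J1) a b := by
    apply Set.Subset.antisymm
    · intro w hw y hy
      rw [← halfspace_iff]
      rcases Finset.mem_union.1 hy with h | h
      · exact hw y (hJ0η y h)
      · rw [hJ1, Set.Finite.mem_toFinset] at h
        exact hw y h.1
    · intro w hw
      have hw' : ∀ y ∈ J0 ∪ J1, ‖w - v‖ ^ 2 + x.2 ≤ ‖w - y.1‖ ^ 2 + y.2 := by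
        intro y hy
        rw [halfspace_iff]
        exact hw y hy
      have hwD : w ∈ D := by
        by_contra hwD
        rw [hD, mem_closedBall, dist_eq_norm, not_le] at hwD
        have hpos : 0 < ‖w - v‖ := lt_of_le_of_lt (by positivity) hwD
        have hsT : 0 < Real.sqrt T := Real.sqrt_pos.2 hT0
        set s := 2 * Real.sqrt T / ‖w - v‖ with hs
        have hs0 : 0 < s := by positivity
        have hs1 : s < 1 := (div_lt_one hpos).2 hwD
        have hvpoly : v ∈ polyhedron (J0 ∪ J1) a b := by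
          intro y hy
          rw [← halfspace_iff]
          rcases Finset.mem_union.1 hy with h | h
          · exact hvcell y (hJ0η y h)
          · rw [hJ1, Set.Finite.mem_toFinset] at h
            exact hvcell y h.1
        have hw1 : v + s • (w - v) ∈ polyhedron (J0 ∪ J1) a b := by
          have := convex_polyhedron (J0 ∪ J1) a b hvpoly hw (by linarith : 0 ≤ 1 - s) hs0.le
            (by ring)
          convert this using 1
          module
        have hnorm : ‖v + s • (w - v) - v‖ = 2 * Real.sqrt T := by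
          rw [add_sub_cancel_left, norm_smul, Real.norm_eq_abs, abs_of_pos hs0, hs,
            div_mul_cancel₀ _ hpos.ne']
        have h9 := hclaimA (v + s • (w - v)) (by
          rw [hD, mem_closedBall, dist_eq_norm, hnorm]) (by
          intro y hy
          rw [halfspace_iff]
          exact hw1 y (Finset.mem_union_left _ hy))
        rw [hnorm, mul_pow, Real.sq_sqrt hT0.le] at h9
        linarith
      have h10 := hclaimA w hwD (fun y hy => hw' y (Finset.mem_union_left _ hy))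
      intro y hy
      by_contra hlt
      rw [not_le, ← hv, hx2] at hlt
      have hyε : ε < -y.2 := by
        have := sq_nonneg ‖w - y.1‖
        linarith
      have h11 : ‖w - y.1‖ ^ 2 ≤ -y.2 := by linarith
      have h12 : ‖w - y.1‖ ≤ Real.sqrt (-y.2) := Real.le_sqrt_of_sq_le h11
      have h13 : ‖w - v‖ ≤ Real.sqrt T := Real.le_sqrt_of_sq_le (by linarith)
      have h14 : ‖y.1‖ ≤ ‖v‖ + Real.sqrt T + Real.sqrt (-y.2) := by
        have : y.1 = v + (w - v) - (w - y.1) := by abel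
        calc ‖y.1‖ = ‖v + (w - v) - (w - y.1)‖ := by rw [← this]
          _ ≤ ‖v + (w - v)‖ + ‖w - y.1‖ := norm_sub_le _ _
          _ ≤ ‖v‖ + ‖w - v‖ + ‖w - y.1‖ := by gcongr; exact norm_add_le _ _
          _ ≤ _ := by gcongr
      have hyJ1 : y ∈ J1 := by
        rw [hJ1, Set.Finite.mem_toFinset]
        exact ⟨hy, hyε, h14⟩
      have := hw' y (Finset.mem_union_right _ hyJ1)
      rw [hx2] at this
      linarith
  have hout : polyhedron (J0 ∪ J1) a b ⊆ closedBall v (Real.sqrt T) := by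
    rw [← hcell]
    intro w hw
    rw [mem_closedBall, dist_eq_norm]
    apply Real.le_sqrt_of_sq_le
    obtain ⟨y, hy, hyw⟩ := h2 w
    have := hw y hy
    rw [← hv, hx2] at this
    linarith
  obtain ⟨u, hu, hsep⟩ := exists_dirs hd hm hK hT
  rw [hcell]
  rw [hcell] at hin
  refine ⟨polyhedron_isPolytope _ a b (Metric.isBounded_closedBall.subset hout), ?_⟩
  exact facets_ge (J0 ∪ J1) a b (Real.sqrt_pos.2 (by linarith)) hin hout u hu hsep

end Pool.Agent.H.MP_f78535_pr
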