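import Mathlib
import Pool.Agent.H.MP_f78535_pr.Defs

set_option autoImplicit false

open Set Filter Metric MeasureTheory
open scoped Topology InnerProductSpace ENNReal

namespace Pool.Agent.H.MP_f78535_pr

/-- density in the height variable -/
noncomputable def dens (β K : ℝ) (h : ℝ) : ℝ≥0∞ :=
  if h < 0 then ENNReal.ofReal (K * (-h) ^ (-β)) else 0

lemma measurable_dens (β K : ℝ) : Measurable (dens β K) := by
  unfold dens
  refine Measurable.ite measurableSet_Iio ?_ measurable_const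
  fun_prop

lemma intensity_apply (d : ℕ) (β γ c : ℝ) {A : Set (EuclideanSpace ℝ (Fin d) × ℝ)}
    (hA : MeasurableSet A) :
    intensity d β γ c A = ∫⁻ h, dens β (γ * c) h * volume {v | (v, h) ∈ A} := by
  have hf : Measurable fun x : EuclideanSpace ℝ (Fin d) × ℝ => dens β (γ * c) x.2 :=
    (measurable_dens _ _).comp measurable_snd
  have h0 : intensity d β γ c A = ∫⁻ x in A, dens β (γ * c) x.2 := by
    unfold intensity
    rw [withDensity_apply _ hA]
    rfl
  rw [h0, ← lintegral_indicator hA, Measure.volume_eq_prod,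
    lintegral_prod_symm' _ (hf.indicator hA)]
  congr 1
  ext h
  have : ∀ v, A.indicator (fun x : EuclideanSpace ℝ (Fin d) × ℝ => dens β (γ * c) x.2) (v, h) =
      {v | (v, h) ∈ A}.indicator (fun _ => dens β (γ * c) h) v := by
    intro v
    by_cases hv : (v, h) ∈ A
    · rw [indicator_of_mem hv, indicator_of_mem (show v ∈ {v | (v, h) ∈ A} from hv)]
    · rw [indicator_of_notMem hv, indicator_of_notMem (show v ∉ {v | (v, h) ∈ A} from hv)]
  simp_rw [this]
  have hm : MeasurableSet {v | (v, h) ∈ A} := measurable_prodMk_right hA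
  rw [lintegral_indicator hm, setLIntegral_const]

lemma lintegral_dens_slab (β K : ℝ) {a b : ℝ} (g : ℝ → ℝ≥0∞) :
    ∫⁻ h, dens β K h * (if a < -h ∧ -h ≤ b then g (-h) else 0) =
      ∫⁻ t, (if 0 < t then ENNReal.ofReal (K * t ^ (-β)) else 0) *
        (if a < t ∧ t ≤ b then g t else 0) := by
  rw [← lintegral_neg_eq_self (μ := (volume : Measure ℝ))
    (f := fun t => (if 0 < t then ENNReal.ofReal (K * t ^ (-β)) else 0) *
        (if a < t ∧ t ≤ b then g t else 0))]
  congr 1
  ext h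
  simp [dens]

/-- measure of slabs, lower bound -/
lemma slab_ge (d : ℕ) (β γ c : ℝ) (hβ : 0 < β) (hK : 0 < γ * c)
    {S : Set (EuclideanSpace ℝ (Fin d))} (hS : MeasurableSet S) {a b : ℝ} (ha : 0 < a)
    (hab : a ≤ b) :
    ENNReal.ofReal (γ * c * (b - a) * b ^ (-β)) * volume S ≤
      intensity d β γ c {x | x.1 ∈ S ∧ a < -x.2 ∧ -x.2 ≤ b} := by
  have hmeas : MeasurableSet {x : EuclideanSpace ℝ (Fin d) × ℝ | x.1 ∈ S ∧ a < -x.2 ∧ -x.2 ≤ b} := by
    refine (measurable_fst hS).inter ?_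
    exact (measurableSet_lt measurable_const measurable_snd.neg).inter
      (measurableSet_le measurable_snd.neg measurable_const)
  rw [intensity_apply d β γ c hmeas]
  have h1 : ∀ h : ℝ, (Ico (-b) (-a)).indicator (fun _ => ENNReal.ofReal (γ * c * b ^ (-β)) * volume S) h ≤
      dens β (γ * c) h * volume {v | (v, h) ∈ {x : EuclideanSpace ℝ (Fin d) × ℝ |
        x.1 ∈ S ∧ a < -x.2 ∧ -x.2 ≤ b}} := by
    intro h
    by_cases hh : h ∈ Ico (-b) (-a)
    · rw [indicator_of_mem hh]
      have h2 : h < 0 := by have := hh.2; linarith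
      have h3 : a < -h := by have := hh.2; linarith
      have h4 : -h ≤ b := by have := hh.1; linarith
      have h5 : {v | (v, h) ∈ {x : EuclideanSpace ℝ (Fin d) × ℝ |
        x.1 ∈ S ∧ a < -x.2 ∧ -x.2 ≤ b}} = S := by
        ext v; simp [h3, h4]
      rw [h5]
      gcongr
      rw [dens, if_pos h2]
      apply ENNReal.ofReal_le_ofReal
      gcongr ?_ * ?_
      exact Real.rpow_le_rpow_of_nonpos (by linarith) h4 (by linarith)
    · rw [indicator_of_notMem hh]; exact bot_le
  refine le_trans ?_ (lintegral_mono h1)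
  rw [lintegral_indicator measurableSet_Ico, setLIntegral_const, Real.volume_Ico]
  have h6 : -a - -b = b - a := by ring
  have h7 : ENNReal.ofReal (γ * c * b ^ (-β)) * volume S * ENNReal.ofReal (b - a) =
      ENNReal.ofReal (γ * c * (b - a) * b ^ (-β)) * volume S := by
    rw [mul_right_comm, ← ENNReal.ofReal_mul' (by linarith)]
    congr 2
    ring
  rw [h6, h7]

lemma slab_le (d : ℕ) (β γ c : ℝ) (hβ : 0 < β) (hK : 0 < γ * c)
    {S : Set (EuclideanSpace ℝ (Fin d))} (hS : MeasurableSet S) {a b : ℝ} (ha : 0 < a)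
    (hab : a ≤ b) :
    intensity d β γ c {x | x.1 ∈ S ∧ a < -x.2 ∧ -x.2 ≤ b} ≤
    ENNReal.ofReal (γ * c * (b - a) * a ^ (-β)) * volume S := by
  have hmeas : MeasurableSet {x : EuclideanSpace ℝ (Fin d) × ℝ | x.1 ∈ S ∧ a < -x.2 ∧ -x.2 ≤ b} := by
    refine (measurable_fst hS).inter ?_
    exact (measurableSet_lt measurable_const measurable_snd.neg).inter
      (measurableSet_le measurable_snd.neg measurable_const)
  rw [intensity_apply d β γ c hmeas]
  have h1 : ∀ h : ℝ, dens β (γ * c) h * volume {v | (v, h) ∈ {x : EuclideanSpace ℝ (Fin d) × ℝ |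
        x.1 ∈ S ∧ a < -x.2 ∧ -x.2 ≤ b}} ≤
      (Ico (-b) (-a)).indicator (fun _ => ENNReal.ofReal (γ * c * a ^ (-β)) * volume S) h := by
    intro h
    by_cases hh : h ∈ Ico (-b) (-a)
    · rw [indicator_of_mem hh]
      have h2 : h < 0 := by have := hh.2; linarith
      have h3 : a < -h := by have := hh.2; linarith
      have h4 : -h ≤ b := by have := hh.1; linarith
      have h5 : {v | (v, h) ∈ {x : EuclideanSpace ℝ (Fin d) × ℝ |
        x.1 ∈ S ∧ a < -x.2 ∧ -x.2 ≤ b}} = S := by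
        ext v; simp [h3, h4]
      rw [h5]
      gcongr
      rw [dens, if_pos h2]
      apply ENNReal.ofReal_le_ofReal
      gcongr ?_ * ?_
      exact Real.rpow_le_rpow_of_nonpos ha h3.le (by linarith)
    · rw [indicator_of_notMem hh]
      have h5 : {v | (v, h) ∈ {x : EuclideanSpace ℝ (Fin d) × ℝ |
        x.1 ∈ S ∧ a < -x.2 ∧ -x.2 ≤ b}} = ∅ := by
        ext v
        simp only [mem_ofPred_eq, mem_empty_iff_false, iff_false, not_and]
        intro _ h6 h7
        exact hh ⟨by linarith, by linarith⟩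
      rw [h5]; simp
  refine (lintegral_mono h1).trans ?_
  rw [lintegral_indicator measurableSet_Ico, setLIntegral_const, Real.volume_Ico]
  have h6 : -a - -b = b - a := by ring
  rw [h6, mul_right_comm, ← ENNReal.ofReal_mul' (by linarith)]
  apply le_of_eq
  congr 2
  ring

/-- region of the points that can be relevant for a ball -/
def region (d : ℕ) (τ ρ : ℝ) : Set (EuclideanSpace ℝ (Fin d) × ℝ) :=
  {x | τ < -x.2 ∧ ‖x.1‖ ≤ ρ + Real.sqrt (-x.2)}

lemma measurableSet_region (d : ℕ) (τ ρ : ℝ) : MeasurableSet (region d τ ρ) := by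
  refine (measurableSet_lt measurable_const measurable_snd.neg).inter ?_
  exact measurableSet_le measurable_fst.norm (by fun_prop)

lemma lintegral_rpow_Ioi {a τ : ℝ} (ha : a < -1) (hτ : 0 < τ) :
    ∫⁻ t in Ioi τ, ENNReal.ofReal (t ^ a) = ENNReal.ofReal (-τ ^ (a + 1) / (a + 1)) := by
  rw [← integral_Ioi_rpow_of_lt ha hτ, ofReal_integral_eq_lintegral_ofReal]
  · exact integrableOn_Ioi_rpow_of_lt ha hτ
  · filter_upwards [ae_restrict_mem measurableSet_Ioi] with t ht
    exact Real.rpow_nonneg (hτ.trans ht).le _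

/-- measure of the regions -/
lemma region_le (d : ℕ) (β γ c : ℝ) (hβ : (d:ℝ) / 2 + 1 < β) (hK : 0 < γ * c) :
    ∃ C : ℝ, 0 < C ∧ ∀ τ ρ : ℝ, 0 < τ → 0 ≤ ρ →
      intensity d β γ c (region d τ ρ) ≤
        ENNReal.ofReal (C * (ρ ^ d * τ ^ (1 - β) + τ ^ ((d:ℝ) / 2 + 1 - β))) := by
  set ω := (volume (ball (0 : EuclideanSpace ℝ (Fin d)) 1)).toReal with hω
  have hωtop : volume (ball (0 : EuclideanSpace ℝ (Fin d)) 1) ≠ ⊤ := measure_ball_lt_top.ne
  have hd0 : (0:ℝ) ≤ d := Nat.cast_nonneg d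
  have hβ1 : 1 < β := by linarith [show (0:ℝ) ≤ (d:ℝ)/2 by positivity]
  set s := β - (d:ℝ) / 2 - 1 with hs
  have hs0 : 0 < s := by linarith
  have hβ10 : 0 < β - 1 := by linarith
  refine ⟨γ * c * (ω + 1) * 2 ^ d * (1 / (β - 1) + 1 / s), by positivity, ?_⟩
  intro τ ρ hτ hρ
  rw [intensity_apply d β γ c (measurableSet_region d τ ρ)]
  -- pointwise bound
  have h1 : ∀ h : ℝ, dens β (γ * c) h * volume {v | (v, h) ∈ region d τ ρ} ≤
      (Iio (-τ)).indicator (fun h => ENNReal.ofReal (γ * c * (ω + 1) * 2 ^ d) *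
        (ENNReal.ofReal (ρ ^ d) * ENNReal.ofReal ((-h) ^ (-β)) +
          ENNReal.ofReal ((-h) ^ ((d:ℝ) / 2 - β)))) h := by
    intro h
    by_cases hh : h ∈ Iio (-τ)
    · rw [indicator_of_mem hh]
      have h2 : h < 0 := by have : h < -τ := hh; linarith
      have h3 : 0 < -h := by linarith
      have h4 : {v | (v, h) ∈ region d τ ρ} ⊆ closedBall 0 (ρ + Real.sqrt (-h)) := by
        intro v hv
        rw [mem_closedBall_zero_iff]; exact hv.2
      have h5 : volume {v | (v, h) ∈ region d τ ρ} ≤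
          ENNReal.ofReal ((ρ + Real.sqrt (-h)) ^ d) * ENNReal.ofReal ω := by
        refine (measure_mono h4).trans ?_
        rw [Measure.addHaar_closedBall _ _ (by positivity), finrank_euclideanSpace_fin, hω,
          ENNReal.ofReal_toReal hωtop]
      have h6 : (ρ + Real.sqrt (-h)) ^ d ≤ 2 ^ d * (ρ ^ d + (-h) ^ ((d:ℝ)/2)) := by
        have h7 : Real.sqrt (-h) ^ d = (-h) ^ ((d:ℝ)/2) := by
          rw [Real.sqrt_eq_rpow, ← Real.rpow_natCast, ← Real.rpow_mul h3.le]
          congr 1; ring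
        rw [← h7]
        rcases le_total ρ (Real.sqrt (-h)) with h8 | h8
        · calc (ρ + Real.sqrt (-h)) ^ d ≤ (2 * Real.sqrt (-h)) ^ d := by gcongr; linarith
            _ = 2 ^ d * (0 + Real.sqrt (-h) ^ d) := by rw [mul_pow, zero_add]
            _ ≤ _ := by gcongr; positivity
        · calc (ρ + Real.sqrt (-h)) ^ d ≤ (2 * ρ) ^ d := by gcongr; linarith
            _ = 2 ^ d * (ρ ^ d + 0) := by rw [mul_pow, add_zero]
            _ ≤ _ := by gcongr; positivity
      rw [dens, if_pos h2]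
      calc ENNReal.ofReal (γ * c * (-h) ^ (-β)) * volume {v | (v, h) ∈ region d τ ρ}
          ≤ ENNReal.ofReal (γ * c * (-h) ^ (-β)) *
            (ENNReal.ofReal (2 ^ d * (ρ ^ d + (-h) ^ ((d:ℝ)/2))) * ENNReal.ofReal (ω + 1)) := by
            gcongr
            refine h5.trans ?_
            gcongr
            linarith
        _ = _ := by
            rw [← ENNReal.ofReal_mul (by positivity), ← ENNReal.ofReal_mul (by positivity),
              ← ENNReal.ofReal_mul (by positivity), ← ENNReal.ofReal_add (by positivity)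
              (by positivity), ← ENNReal.ofReal_mul (by positivity)]
            congr 1
            have h9 : (-h) ^ ((d:ℝ) / 2 - β) = (-h) ^ (-β) * (-h) ^ ((d:ℝ)/2) := by
              rw [← Real.rpow_add h3]; congr 1; ring
            rw [h9]; ring
    · rw [indicator_of_notMem hh]
      have h5 : {v | (v, h) ∈ region d τ ρ} = ∅ := by
        ext v
        simp only [region, mem_ofPred_eq, mem_empty_iff_false, iff_false, not_and]
        intro h6
        exact absurd (show h < -τ by linarith) hh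
      rw [h5]; simp
  refine (lintegral_mono h1).trans ?_
  rw [lintegral_indicator measurableSet_Iio]
  have hsub : ∫⁻ h in Iio (-τ), (ENNReal.ofReal (γ * c * (ω + 1) * 2 ^ d) *
        (ENNReal.ofReal (ρ ^ d) * ENNReal.ofReal ((-h) ^ (-β)) +
          ENNReal.ofReal ((-h) ^ ((d:ℝ) / 2 - β)))) =
      ∫⁻ t in Ioi τ, (ENNReal.ofReal (γ * c * (ω + 1) * 2 ^ d) *
        (ENNReal.ofReal (ρ ^ d) * ENNReal.ofReal (t ^ (-β)) +
          ENNReal.ofReal (t ^ ((d:ℝ) / 2 - β)))) := by
    rw [← lintegral_indicator measurableSet_Iio, ← lintegral_indicator measurableSet_Ioi,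
      ← lintegral_neg_eq_self (μ := (volume : Measure ℝ))]
    congr 1
    ext h
    by_cases hh : τ < h
    · rw [indicator_of_mem (show -h ∈ Iio (-τ) by simpa using hh),
        indicator_of_mem (show h ∈ Ioi τ from hh)]
      simp
    · rw [indicator_of_notMem (show -h ∉ Iio (-τ) by simpa using hh),
        indicator_of_notMem (show h ∉ Ioi τ from hh)]
  rw [hsub, lintegral_const_mul _ (by fun_prop), lintegral_add_left (by fun_prop),
    lintegral_const_mul _ (by fun_prop), lintegral_rpow_Ioi (by linarith) hτ,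
    lintegral_rpow_Ioi (by linarith) hτ, ← ENNReal.ofReal_mul (by positivity),
    ← ENNReal.ofReal_add, ← ENNReal.ofReal_mul (by positivity)]
  · apply ENNReal.ofReal_le_ofReal
    have e1 : -τ ^ (-β + 1) / (-β + 1) = τ ^ (1 - β) / (β - 1) := by
      rw [show -β + 1 = -(β - 1) by ring, show 1 - β = -(β - 1) by ring, neg_div_neg_eq]
    have e2 : -τ ^ ((d:ℝ) / 2 - β + 1) / ((d:ℝ) / 2 - β + 1) = τ ^ ((d:ℝ) / 2 + 1 - β) / s := by
      rw [show (d:ℝ) / 2 - β + 1 = -s by rw [hs]; ring,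
        show (d:ℝ) / 2 + 1 - β = -s by rw [hs]; ring, neg_div_neg_eq]
    rw [e1, e2]
    have f1 : 0 ≤ ρ ^ d * τ ^ (1 - β) := by positivity
    have f2 : 0 ≤ τ ^ ((d:ℝ) / 2 + 1 - β) := by positivity
    have f3 : ρ ^ d * (τ ^ (1 - β) / (β - 1)) + τ ^ ((d:ℝ) / 2 + 1 - β) / s ≤
        (1 / (β - 1) + 1 / s) * (ρ ^ d * τ ^ (1 - β) + τ ^ ((d:ℝ) / 2 + 1 - β)) := by
      have g1 : 0 ≤ 1 / (β - 1) := by positivity
      have g2 : 0 ≤ 1 / s := by positivity
      have g3 : ρ ^ d * (τ ^ (1 - β) / (β - 1)) = (1 / (β - 1)) * (ρ ^ d * τ ^ (1 - β)) := by ring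
      have g4 : τ ^ ((d:ℝ) / 2 + 1 - β) / s = (1 / s) * τ ^ ((d:ℝ) / 2 + 1 - β) := by ring
      rw [g3, g4]
      nlinarith [mul_nonneg g1 f2, mul_nonneg g2 f1]
    calc γ * c * (ω + 1) * 2 ^ d * (ρ ^ d * (τ ^ (1 - β) / (β - 1)) + τ ^ ((d:ℝ) / 2 + 1 - β) / s)
        ≤ γ * c * (ω + 1) * 2 ^ d * ((1 / (β - 1) + 1 / s) *
          (ρ ^ d * τ ^ (1 - β) + τ ^ ((d:ℝ) / 2 + 1 - β))) := by gcongr
      _ = _ := by ring
  · rw [show -β + 1 = -(β - 1) by ring, neg_div_neg_eq]; positivity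
  · rw [show (d:ℝ) / 2 - β + 1 = -s by rw [hs]; ring, neg_div_neg_eq]; positivity

end Pool.Agent.H.MP_f78535_pr
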