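import Mathlib
import Pool.Agent.H.MP_f78535_pr.Defs

set_option autoImplicit false

open Set Filter MeasureTheory ProbabilityTheory
open scoped Topology ENNReal Nat

namespace Pool.Agent.H.MP_f78535_pr

variable {Ω S : Type*} [MeasurableSpace Ω] [MeasurableSpace S]

namespace IsPoissonProcess

variable {X : ℕ → Ω → S} {μ : Measure S} {P : Measure Ω}

omit [MeasurableSpace Ω] [MeasurableSpace S] in
lemma coe_count (X : ℕ → Ω → S) (B : Set S) (w : Ω) :
    ((count X B w : ℕ∞) : ℝ≥0∞) = ∑' i, (X i ⁻¹' B).indicator (fun _ => (1:ℝ≥0∞)) w := by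
  unfold count
  rw [← ENNReal.tsum_set_one, tsum_subtype {i | X i w ∈ B} (fun _ => (1:ℝ≥0∞))]
  rfl

lemma measurable_coe_count (h : ∀ i, Measurable (X i)) {B : Set S} (hB : MeasurableSet B) :
    Measurable fun w => ((count X B w : ℕ∞) : ℝ≥0∞) := by
  simp_rw [coe_count]
  exact Measurable.tsum fun i => measurable_const.indicator (h i hB)

lemma measurable_count (h : ∀ i, Measurable (X i)) {B : Set S} (hB : MeasurableSet B) :
    Measurable (count X B) := by
  apply measurable_to_countable'
  intro k
  have : count X B ⁻¹' {k} = (fun w => ((count X B w : ℕ∞) : ℝ≥0∞)) ⁻¹' {(k : ℝ≥0∞)} := by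
    ext w
    simp
  rw [this]
  exact measurable_coe_count h hB (measurableSet_singleton _)

/-- the mass function sums to one: the count is a.s. finite -/
lemma ae_count_ne_top [IsProbabilityMeasure P] (h : IsPoissonProcess X μ P) {B : Set S}
    (hB : MeasurableSet B) (hμ : μ B ≠ ⊤) : ∀ᵐ w ∂P, count X B w ≠ ⊤ := by
  set lam := (μ B).toReal with hlam
  have hlam0 : 0 ≤ lam := ENNReal.toReal_nonneg
  have hm := measurable_count h.measurable hB
  have hsum : ∑' n : ℕ, P {w | count X B w = n} = 1 := by
    simp_rw [h.law B hB hμ]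
    rw [← ENNReal.ofReal_tsum_of_nonneg (fun n => by positivity)]
    · have h1 : HasSum (fun n : ℕ => Real.exp (-lam) * (lam ^ n / n !)) (Real.exp (-lam) * Real.exp lam) := by
        apply HasSum.mul_left
        rw [Real.exp_eq_exp_ℝ]
        exact NormedSpace.expSeries_div_hasSum_exp lam
      have h2 : (fun n : ℕ => Real.exp (-lam) * lam ^ n / n !) =
          fun n : ℕ => Real.exp (-lam) * (lam ^ n / n !) := by ext n; ring
      rw [← hlam, h2, h1.tsum_eq, ← Real.exp_add]
      simp
    · have h1 : HasSum (fun n : ℕ => Real.exp (-lam) * (lam ^ n / n !)) (Real.exp (-lam) * Real.exp lam) := by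
        apply HasSum.mul_left
        rw [Real.exp_eq_exp_ℝ]
        exact NormedSpace.expSeries_div_hasSum_exp lam
      have h2 : (fun n : ℕ => Real.exp (-lam) * lam ^ n / n !) =
          fun n : ℕ => Real.exp (-lam) * (lam ^ n / n !) := by ext n; ring
      rw [← hlam, h2]; exact h1.summable
  have hunion : P (⋃ n : ℕ, {w | count X B w = n}) = 1 := by
    have hms : ∀ n : ℕ, MeasurableSet {w | count X B w = n} :=
      fun n => hm (measurableSet_singleton (n : ℕ∞))
    have hdisj : Pairwise (Function.onFun Disjoint fun n : ℕ => {w | count X B w = n}) := by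
      intro n m hnm
      refine Set.disjoint_left.2 fun w hw hw' => hnm ?_
      have hw1 : count X B w = n := hw
      have hw2 : count X B w = m := hw'
      rw [hw1] at hw2
      exact_mod_cast hw2
    rw [measure_iUnion hdisj hms, hsum]
  have hae : ∀ᵐ w ∂P, w ∈ ⋃ n : ℕ, {w | count X B w = n} := by
    have hms : MeasurableSet (⋃ n : ℕ, {w | count X B w = n}) :=
      MeasurableSet.iUnion fun n => hm (measurableSet_singleton (n : ℕ∞))
    rw [← prob_compl_eq_zero_iff hms] at hunion
    exact measure_eq_zero_iff_ae_notMem.1 hunion |>.mono fun w hw => by simpa using hw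
  filter_upwards [hae] with w hw
  obtain ⟨n, hn⟩ := mem_iUnion.1 hw
  have : count X B w = n := hn
  rw [this]; exact ENat.natCast_ne_top n

/-- the mean number of points -/
lemma lintegral_count [IsProbabilityMeasure P] (h : IsPoissonProcess X μ P) {B : Set S}
    (hB : MeasurableSet B) (hμ : μ B ≠ ⊤) : ∫⁻ w, (count X B w : ℝ≥0∞) ∂P = μ B := by
  set lam := (μ B).toReal with hlam
  have hlam0 : 0 ≤ lam := ENNReal.toReal_nonneg
  have hm := measurable_count h.measurable hB
  have h1 : ∀ᵐ w ∂P, (count X B w : ℝ≥0∞) =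
      ∑' n : ℕ, (count X B ⁻¹' {(n:ℕ∞)}).indicator (fun _ => (n:ℝ≥0∞)) w := by
    filter_upwards [h.ae_count_ne_top hB hμ] with w hw
    obtain ⟨k, hk⟩ := ENat.ne_top_iff_exists.1 hw
    rw [tsum_eq_single k]
    · rw [indicator_of_mem]
      · rw [← hk]; rfl
      · simp [hk.symm]
    · intro n hn
      rw [indicator_of_notMem]
      simp only [mem_preimage, mem_singleton_iff, ← hk]
      exact_mod_cast hn.symm
  rw [lintegral_congr_ae h1, lintegral_tsum (fun n =>
    (measurable_const.indicator (hm (measurableSet_singleton _))).aemeasurable)]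
  have h2 : ∀ n : ℕ, ∫⁻ w, (count X B ⁻¹' {(n:ℕ∞)}).indicator (fun _ => (n:ℝ≥0∞)) w ∂P =
      n * ENNReal.ofReal (Real.exp (-lam) * lam ^ n / n !) := by
    intro n
    rw [lintegral_indicator (hm (measurableSet_singleton _)), setLIntegral_const]
    congr 1
    exact h.law B hB hμ n
  simp_rw [h2]
  rw [tsum_eq_zero_add' ENNReal.summable]
  simp only [Nat.cast_zero, zero_mul, zero_add]
  have h3 : ∀ n : ℕ, ((n + 1 : ℕ) : ℝ≥0∞) *
      ENNReal.ofReal (Real.exp (-lam) * lam ^ (n + 1) / (n + 1)!) =
      ENNReal.ofReal lam * ENNReal.ofReal (Real.exp (-lam) * lam ^ n / n !) := by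
    intro n
    rw [← ENNReal.ofReal_natCast, ← ENNReal.ofReal_mul (by positivity), ← ENNReal.ofReal_mul hlam0]
    congr 1
    rw [Nat.factorial_succ, pow_succ]
    push_cast
    field_simp
  simp_rw [h3]
  rw [ENNReal.tsum_mul_left]
  have h4 : ∑' n : ℕ, ENNReal.ofReal (Real.exp (-lam) * lam ^ n / n !) = 1 := by
    rw [← ENNReal.ofReal_tsum_of_nonneg (fun n => by positivity)]
    · have h1 : HasSum (fun n : ℕ => Real.exp (-lam) * (lam ^ n / n !)) (Real.exp (-lam) * Real.exp lam) := by
        apply HasSum.mul_left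
        rw [Real.exp_eq_exp_ℝ]
        exact NormedSpace.expSeries_div_hasSum_exp lam
      have h2 : (fun n : ℕ => Real.exp (-lam) * lam ^ n / n !) =
          fun n : ℕ => Real.exp (-lam) * (lam ^ n / n !) := by ext n; ring
      rw [h2, h1.tsum_eq, ← Real.exp_add]
      simp
    · have h1 : HasSum (fun n : ℕ => Real.exp (-lam) * (lam ^ n / n !)) (Real.exp (-lam) * Real.exp lam) := by
        apply HasSum.mul_left
        rw [Real.exp_eq_exp_ℝ]
        exact NormedSpace.expSeries_div_hasSum_exp lam
      have h2 : (fun n : ℕ => Real.exp (-lam) * lam ^ n / n !) =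
          fun n : ℕ => Real.exp (-lam) * (lam ^ n / n !) := by ext n; ring
      rw [h2]; exact h1.summable
  rw [h4, mul_one, hlam, ENNReal.ofReal_toReal hμ]

lemma indepFun_count [IsProbabilityMeasure P] (h : IsPoissonProcess X μ P) {A B : Set S}
    (hA : MeasurableSet A) (hB : MeasurableSet B) (hAB : Disjoint A B) :
    IndepFun (count X A) (count X B) P := by
  have := h.indep 2 ![A, B] (by intro j; fin_cases j <;> simpa) (by
    intro i j hij
    fin_cases i <;> fin_cases j
    · exact absurd rfl hij
    · simpa [Function.onFun] using hAB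
    · simpa [Function.onFun] using hAB.symm
    · exact absurd rfl hij)
  simpa using this.indepFun (show (0 : Fin 2) ≠ 1 by decide)

/-- mean number of points in `A` on the event that `B` is empty -/
lemma tsum_prob_inter [IsProbabilityMeasure P] (h : IsPoissonProcess X μ P) {A B : Set S}
    (hA : MeasurableSet A) (hB : MeasurableSet B) (hAB : Disjoint A B)
    (hμA : μ A ≠ ⊤) (hμB : μ B ≠ ⊤) :
    ∑' i, P {w | X i w ∈ A ∧ count X B w = 0} =
      μ A * ENNReal.ofReal (Real.exp (-(μ B).toReal)) := by
  have hmA := measurable_count h.measurable hA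
  have hmB := measurable_count h.measurable hB
  have h1 : ∀ i, P {w | X i w ∈ A ∧ count X B w = 0} =
      ∫⁻ w, (X i ⁻¹' A).indicator (fun _ => (1:ℝ≥0∞)) w *
        (count X B ⁻¹' {0}).indicator (fun _ => (1:ℝ≥0∞)) w ∂P := by
    intro i
    have : ∀ w, (X i ⁻¹' A).indicator (fun _ => (1:ℝ≥0∞)) w *
        (count X B ⁻¹' {0}).indicator (fun _ => (1:ℝ≥0∞)) w =
        {w | X i w ∈ A ∧ count X B w = 0}.indicator (fun _ => (1:ℝ≥0∞)) w := by
      intro w
      by_cases h1 : X i w ∈ A <;> by_cases h2 : count X B w = 0 <;> simp [indicator, h1, h2]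
    simp_rw [this]
    have hms : MeasurableSet {w | X i w ∈ A ∧ count X B w = 0} :=
      (h.measurable i hA).inter (hmB (measurableSet_singleton 0))
    rw [lintegral_indicator hms]
    simp
  simp_rw [h1]
  have hmeas : ∀ i, AEMeasurable (fun w => (X i ⁻¹' A).indicator (fun _ => (1:ℝ≥0∞)) w *
        (count X B ⁻¹' {0}).indicator (fun _ => (1:ℝ≥0∞)) w) P := fun i =>
    ((measurable_const.indicator (h.measurable i hA)).mul
    (measurable_const.indicator (hmB (measurableSet_singleton 0)))).aemeasurable
  rw [← lintegral_tsum hmeas]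
  simp_rw [ENNReal.tsum_mul_right, ← coe_count]
  have hind : IndepFun (fun w => (count X A w : ℝ≥0∞))
      (fun w => (count X B ⁻¹' {0}).indicator (fun _ => (1:ℝ≥0∞)) w) P := by
    exact (h.indepFun_count hA hB hAB).comp
      (measurable_of_countable (fun n : ℕ∞ => (n : ℝ≥0∞)))
      (measurable_of_countable
        (fun n : ℕ∞ => ({0} : Set ℕ∞).indicator (fun _ => (1:ℝ≥0∞)) n))
  rw [lintegral_mul_eq_lintegral_mul_lintegral_of_indepFun''
    (measurable_coe_count h.measurable hA).aemeasurable
    (measurable_const.indicator (hmB (measurableSet_singleton 0))).aemeasurable hind,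
    h.lintegral_count hA hμA, lintegral_indicator (hmB (measurableSet_singleton 0))]
  congr 1
  have := h.law B hB hμB 0
  simp only [Nat.cast_zero, pow_zero, mul_one, Nat.factorial_zero, Nat.cast_one, div_one] at this
  simp only [lintegral_const, MeasurableSet.univ, Measure.restrict_apply, univ_inter, one_mul]
  exact this

lemma tsum_prob [IsProbabilityMeasure P] (h : IsPoissonProcess X μ P) {A : Set S}
    (hA : MeasurableSet A) (hμA : μ A ≠ ⊤) :
    ∑' i, P {w | X i w ∈ A} = μ A := by
  have h1 : ∀ i, P {w | X i w ∈ A} =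
      ∫⁻ w, (X i ⁻¹' A).indicator (fun _ => (1:ℝ≥0∞)) w ∂P := by
    intro i
    rw [lintegral_indicator (h.measurable i hA)]
    simp
    rfl
  simp_rw [h1]
  rw [← lintegral_tsum (fun i => ((measurable_const.indicator (h.measurable i hA))).aemeasurable)]
  simp_rw [← coe_count]
  exact h.lintegral_count hA hμA

end IsPoissonProcess

end Pool.Agent.H.MP_f78535_pr
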