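import Pool.Agent.H.MP_f78535_pr.Geo
import Pool.Agent.H.MP_f78535_pr.Meas
import Pool.Agent.H.MP_f78535_pr.Poisson

set_option autoImplicit false

open Set Filter MeasureTheory ProbabilityTheory Metric
open scoped Topology ENNReal Nat

namespace Pool.Agent.H.MP_f78535_pr

abbrev E (d : ℕ) := EuclideanSpace ℝ (Fin d)

/-- grid cube of side `l` -/
def cube (d : ℕ) (l : ℝ) (z : Fin d → ℤ) : Set (E d) :=
  {v | ∀ i, l * z i ≤ v i ∧ v i < l * (z i + 1)}

lemma measurableSet_cube (d : ℕ) (l : ℝ) (z : Fin d → ℤ) : MeasurableSet (cube d l z) := by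
  have : cube d l z = ⋂ i, {v : E d | l * z i ≤ v i} ∩ {v : E d | v i < l * (z i + 1)} := by
    ext v; simp [cube]
  rw [this]
  refine MeasurableSet.iInter fun i => ?_
  exact (measurableSet_le measurable_const (by fun_prop)).inter
    (measurableSet_lt (by fun_prop) measurable_const)

lemma volume_cube (d : ℕ) {l : ℝ} (hl : 0 ≤ l) (z : Fin d → ℤ) :
    volume (cube d l z) = ENNReal.ofReal (l ^ d) := by
  have h1 : cube d l z = (WithLp.ofLp : E d → (Fin d → ℝ)) ⁻¹'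
      (Set.pi univ fun i => Ico (l * z i) (l * (z i + 1))) := by
    ext v; simp [cube]
  rw [h1, (PiLp.volume_preserving_ofLp (Fin d)).measure_preimage
    (MeasurableSet.univ_pi fun i => measurableSet_Ico).nullMeasurableSet, Real.volume_pi_Ico]
  have h2 : ∀ i, l * ((z i : ℝ) + 1) - l * z i = l := fun i => by ring
  simp_rw [h2]
  rw [Finset.prod_const, Finset.card_univ, Fintype.card_fin, ENNReal.ofReal_pow hl]

/-- index of the grid cube containing `v` -/
noncomputable def idx (d : ℕ) (l : ℝ) (v : E d) : Fin d → ℤ := fun i => ⌊v i / l⌋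

lemma mem_cube_idx (d : ℕ) {l : ℝ} (hl : 0 < l) (v : E d) : v ∈ cube d l (idx d l v) := by
  intro i
  have h1 := Int.floor_le (v i / l)
  have h2 := Int.lt_floor_add_one (v i / l)
  constructor
  · have := mul_le_mul_of_nonneg_left h1 hl.le
    rwa [mul_div_cancel₀ _ hl.ne'] at this
  · have := mul_lt_mul_of_pos_left h2 hl
    rwa [mul_div_cancel₀ _ hl.ne'] at this

lemma idx_abs_le (d : ℕ) {l : ℝ} (hl : 0 < l) {v : E d} {N : ℕ} (hv : ‖v‖ ≤ l * N) (i : Fin d) :
    idx d l v i ∈ Finset.Icc (-(N:ℤ)) (N:ℤ) := by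
  have h0 : |v i| ≤ l * N := by
    have := PiLp.norm_apply_le v i
    rw [Real.norm_eq_abs] at this
    exact this.trans hv
  have h1 := (abs_le.1 h0).1
  have h2 := (abs_le.1 h0).2
  rw [Finset.mem_Icc]
  constructor
  · rw [idx, Int.le_floor]
    push_cast
    rw [le_div_iff₀ hl]; linarith
  · have : ⌊v i / l⌋ ≤ ⌊(N:ℝ)⌋ := by
      apply Int.floor_le_floor
      rw [div_le_iff₀ hl]; linarith
    rw [Int.floor_natCast] at this
    exact this

lemma norm_sub_sq_le_of_mem_cube (d : ℕ) {l : ℝ} {z : Fin d → ℤ} {v w : E d}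
    (hv : v ∈ cube d l z) (hw : w ∈ cube d l z) : ‖v - w‖ ^ 2 ≤ d * l ^ 2 := by
  rw [EuclideanSpace.norm_sq_eq]
  calc ∑ i, ‖(v - w) i‖ ^ 2 ≤ ∑ i : Fin d, l ^ 2 := by
        apply Finset.sum_le_sum
        intro i _
        rw [Real.norm_eq_abs, PiLp.sub_apply]
        have h1 := hv i
        have h2 := hw i
        have h3 : |v i - w i| ≤ l := by
          rw [abs_le]; constructor <;> linarith
        gcongr
    _ = d * l ^ 2 := by simp

/-- slab above a grid cube used for covering: heights between `(d+1) l²` and `2 (d+1) l²` -/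
def slab (d : ℕ) (l : ℝ) (z : Fin d → ℤ) : Set (E d × ℝ) :=
  {x | x.1 ∈ cube d l z ∧ (d+1) * l ^ 2 < -x.2 ∧ -x.2 ≤ 2 * ((d+1) * l ^ 2)}

lemma measurableSet_slab' (d : ℕ) {Q : Set (E d)} (hQ : MeasurableSet Q) (a b : ℝ) :
    MeasurableSet {x : E d × ℝ | x.1 ∈ Q ∧ a < -x.2 ∧ -x.2 ≤ b} := by
  refine (measurable_fst hQ).inter ?_
  exact (measurableSet_lt measurable_const measurable_snd.neg).inter
      (measurableSet_le measurable_snd.neg measurable_const)

lemma measurableSet_slab (d : ℕ) (l : ℝ) (z : Fin d → ℤ) : MeasurableSet (slab d l z) :=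
  measurableSet_slab' d (measurableSet_cube d l z) _ _

/-- a point in the slab covers the whole cube with margin `l²` -/
lemma slab_covers (d : ℕ) {l : ℝ} {z : Fin d → ℤ} {y : E d × ℝ} (hy : y ∈ slab d l z) {w : E d}
    (hw : w ∈ cube d l z) : ‖w - y.1‖ ^ 2 + y.2 < -l ^ 2 := by
  have h1 := norm_sub_sq_le_of_mem_cube d hw hy.1
  have h2 := hy.2.1
  linarith

variable {Ω : Type*} [MeasurableSpace Ω] {P : Measure Ω} [IsProbabilityMeasure P]
  {d : ℕ} {β γ c : ℝ} {X : ℕ → Ω → E d × ℝ}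

lemma region_finite (hβ : (d:ℝ) / 2 + 1 < β) (hK : 0 < γ * c) {τ ρ : ℝ} (hτ : 0 < τ)
    (hρ : 0 ≤ ρ) : intensity d β γ c (region d τ ρ) ≠ ⊤ := by
  obtain ⟨C, _, hC⟩ := region_le d β γ c hβ hK
  exact ((hC τ ρ hτ hρ).trans_lt ENNReal.ofReal_lt_top).ne

omit [IsProbabilityMeasure P] in
lemma prob_count_zero (h : IsPoissonProcess X (intensity d β γ c) P) {A : Set (E d × ℝ)}
    (hA : MeasurableSet A) (hμ : intensity d β γ c A ≠ ⊤) :
    P {w | count X A w = 0} = ENNReal.ofReal (Real.exp (-(intensity d β γ c A).toReal)) := by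
  have := h.law A hA hμ 0
  simpa using this

/-- emptiness of a slab is exponentially unlikely -/
lemma prob_slab_empty (hβ : (d:ℝ) / 2 + 1 < β) (hK : 0 < γ * c) :
    ∃ κ : ℝ, 0 < κ ∧ ∀ l : ℝ, 0 < l → ∀ z : Fin d → ℤ,
      intensity d β γ c (slab d l z) ≠ ⊤ ∧
      κ * (l ^ 2) ^ ((d:ℝ)/2 + 1 - β) ≤ (intensity d β γ c (slab d l z)).toReal := by
  have hd0 : (0:ℝ) ≤ d := Nat.cast_nonneg d
  have hβ0 : 0 < β := by linarith [show (0:ℝ) ≤ (d:ℝ)/2 by positivity]
  have ha : (0:ℝ) < d + 1 := by positivity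
  refine ⟨γ * c * (d+1) * (2 * (d+1)) ^ (-β), by positivity, ?_⟩
  intro l hl z
  have hl2 : 0 < l ^ 2 := by positivity
  have hfin : intensity d β γ c (slab d l z) ≠ ⊤ := by
    have := slab_le d β γ c hβ0 hK (measurableSet_cube d l z) (a := (d+1) * l ^ 2)
      (b := 2 * ((d+1) * l ^ 2)) (by positivity) (by nlinarith [mul_pos ha hl2])
    refine (this.trans_lt ?_).ne
    rw [volume_cube d hl.le]
    exact ENNReal.mul_lt_top ENNReal.ofReal_lt_top ENNReal.ofReal_lt_top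
  refine ⟨hfin, ?_⟩
  have h1 := slab_ge d β γ c hβ0 hK (measurableSet_cube d l z) (a := (d+1) * l ^ 2)
      (b := 2 * ((d+1) * l ^ 2)) (by positivity) (by nlinarith [mul_pos ha hl2])
  rw [volume_cube d hl.le, ← ENNReal.ofReal_mul (by
    have : 2 * (((d:ℝ)+1) * l ^ 2) - (d+1) * l ^ 2 = (d+1) * l ^ 2 := by ring
    rw [this]; positivity)] at h1
  have h2 := (ENNReal.ofReal_le_iff_le_toReal hfin).1 h1
  refine le_trans (le_of_eq ?_) h2
  have e1 : 2 * (((d:ℝ)+1) * l ^ 2) - (d+1) * l ^ 2 = (d+1) * l ^ 2 := by ring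
  have e2 : (2 * (((d:ℝ)+1) * l ^ 2)) ^ (-β) = (2 * (d+1)) ^ (-β) * (l ^ 2) ^ (-β) := by
    rw [← mul_assoc, Real.mul_rpow (by positivity) hl2.le]
  have e3 : l ^ d = (l ^ 2) ^ ((d:ℝ)/2) := by
    rw [← Real.rpow_natCast l 2, ← Real.rpow_natCast l d, ← Real.rpow_mul hl.le]
    congr 1; push_cast; ring
  have e4 : (l ^ 2) ^ ((d:ℝ)/2 + 1 - β) = (l ^ 2) ^ ((d:ℝ)/2) * (l ^ 2) * (l ^ 2) ^ (-β) := by
    rw [sub_eq_add_neg, Real.rpow_add hl2, Real.rpow_add hl2, Real.rpow_one]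
  rw [e1, e2, e3, e4]
  ring

/-- finite set of cubes meeting the ball of radius `l * N` -/
noncomputable def cubes (d N : ℕ) : Finset (Fin d → ℤ) := Fintype.piFinset fun _ => Finset.Icc (-(N:ℤ)) (N:ℤ)

lemma card_cubes (d N : ℕ) : (cubes d N).card = (2 * N + 1) ^ d := by
  simp only [cubes, Fintype.card_piFinset, Int.card_Icc, Finset.prod_const, Finset.card_univ,
    Fintype.card_fin]
  congr 1
  omega

lemma idx_mem_cubes {l : ℝ} (hl : 0 < l) {v : E d} {N : ℕ} (hv : ‖v‖ ≤ l * N) :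
    idx d l v ∈ cubes d N := by
  rw [cubes, Fintype.mem_piFinset]
  exact idx_abs_le d hl hv

/-- growth lemma -/
lemma exists_geom_bound {b q κ : ℝ} (hb : 0 < b) (hq : 1 < q) (hκ : 0 < κ) :
    ∃ C : ℝ, 0 < C ∧ ∀ k : ℕ, b ^ k * Real.exp (-(κ * q ^ k)) ≤ C * (1/2:ℝ) ^ k := by
  obtain ⟨N, hN⟩ := pow_unbounded_of_one_lt (2 * b) hq
  refine ⟨N ! / κ ^ N, by positivity, fun k => ?_⟩
  have h1 := Real.pow_div_factorial_le_exp (x := κ * q ^ k) (by positivity) N
  have h2 : Real.exp (-(κ * q ^ k)) ≤ N ! / (κ * q ^ k) ^ N := by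
    rw [Real.exp_neg, le_div_iff₀ (by positivity), inv_mul_le_iff₀ (Real.exp_pos _)]
    rw [div_le_iff₀ (by positivity)] at h1
    exact h1
  calc b ^ k * Real.exp (-(κ * q ^ k)) ≤ b ^ k * (N ! / (κ * q ^ k) ^ N) := by gcongr
    _ = N ! / κ ^ N * (b / q ^ N) ^ k := by
        have h3 : (q ^ k) ^ N = (q ^ N) ^ k := by rw [← pow_mul, ← pow_mul, mul_comm]
        rw [mul_pow, div_pow, h3]
        field_simp
    _ ≤ N ! / κ ^ N * (1/2) ^ k := by
        apply mul_le_mul_of_nonneg_left _ (by positivity)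
        apply pow_le_pow_left₀ (by positivity)
        rw [div_le_div_iff₀ (by positivity) (by norm_num)]
        linarith

end Pool.Agent.H.MP_f78535_pr
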