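import Mathlib
import Pool.Agent.H.MP_f78535_pr.Defs

set_option autoImplicit false

open Set Filter Metric
open scoped Topology InnerProductSpace

namespace Pool.Agent.H.MP_f78535_pr

variable {F : Type*} [NormedAddCommGroup F] [InnerProductSpace ℝ F]

/-- The polyhedron cut out by finitely many closed half-spaces. -/
def polyhedron {ι : Type*} (J : Finset ι) (a : ι → F) (b : ι → ℝ) : Set F :=
  {w | ∀ j ∈ J, ⟪a j, w⟫_ℝ ≤ b j}

section
variable {ι : Type*} (J : Finset ι) (a : ι → F) (b : ι → ℝ)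

lemma convex_polyhedron : Convex ℝ (polyhedron J a b) := by
  intro x hx y hy s t hs ht hst j hj
  have h1 := hx j hj
  have h2 := hy j hj
  rw [inner_add_right, inner_smul_right, inner_smul_right]
  calc s * ⟪a j, x⟫_ℝ + t * ⟪a j, y⟫_ℝ ≤ s * b j + t * b j := by gcongr
    _ = b j := by rw [← add_mul, hst, one_mul]

lemma isClosed_polyhedron : IsClosed (polyhedron J a b) := by
  have : polyhedron J a b = ⋂ j ∈ J, {w | ⟪a j, w⟫_ℝ ≤ b j} := by
    ext w; simp [polyhedron]
  rw [this]
  refine isClosed_biInter fun j _ => ?_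
  exact isClosed_le (by fun_prop) continuous_const

lemma eventually_mem_polyhedron {x v : F} (hx : x ∈ polyhedron J a b)
    (hv : ∀ j ∈ J, ⟪a j, x⟫_ℝ = b j → ⟪a j, v⟫_ℝ = 0) :
    ∀ᶠ ε in 𝓝 (0:ℝ), x + ε • v ∈ polyhedron J a b := by
  have : ∀ᶠ ε in 𝓝 (0:ℝ), ∀ j ∈ J, ⟪a j, x + ε • v⟫_ℝ ≤ b j := by
    rw [Filter.eventually_all_finset]
    intro j hj
    by_cases h : ⟪a j, x⟫_ℝ = b j
    · refine Filter.Eventually.of_forall fun ε => ?_
      rw [inner_add_right, inner_smul_right, hv j hj h, h]; simp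
    · have hlt : ⟪a j, x⟫_ℝ < b j := lt_of_le_of_ne (hx j hj) h
      have hc : Continuous fun ε : ℝ => ⟪a j, x + ε • v⟫_ℝ := by fun_prop
      have h0 : ⟪a j, x + (0:ℝ) • v⟫_ℝ < b j := by simpa using hlt
      exact (hc.tendsto 0).eventually (gt_mem_nhds h0) |>.mono fun _ h => le_of_lt h
  exact this

lemma polyhedron_isPolytope [FiniteDimensional ℝ F]
    (hb : Bornology.IsBounded (polyhedron J a b)) :
    ∃ T : Set F, T.Finite ∧ polyhedron J a b = convexHull ℝ T := by
  classical
  set P := polyhedron J a b with hP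
  have hcomp : IsCompact P := Metric.isCompact_of_isClosed_isBounded
    (isClosed_polyhedron J a b) hb
  have hconv : Convex ℝ P := convex_polyhedron J a b
  have hfin : (P.extremePoints ℝ).Finite := by
    let act : F → Finset ι := fun x => J.filter fun j => ⟪a j, x⟫_ℝ = b j
    have hinj : Set.InjOn act (P.extremePoints ℝ) := by
      intro x hx y hy hxy
      by_contra hne
      have hxP : x ∈ P := hx.1
      have hyP : y ∈ P := hy.1
      have key : ∀ j ∈ J, ⟪a j, x⟫_ℝ = b j → ⟪a j, x - y⟫_ℝ = 0 := by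
        intro j hj h
        have : j ∈ act x := by simp [act, hj, h]
        rw [hxy] at this
        have h2 : ⟪a j, y⟫_ℝ = b j := by simpa [act, hj] using this
        rw [inner_sub_right, h, h2, sub_self]
      have key2 : ∀ j ∈ J, ⟪a j, x⟫_ℝ = b j → ⟪a j, -(x - y)⟫_ℝ = 0 := by
        intro j hj h
        rw [inner_neg_right, key j hj h, neg_zero]
      have e1 := eventually_mem_polyhedron J a b hxP key
      have e2 := eventually_mem_polyhedron J a b hxP key2
      have e3 : ∀ᶠ ε in 𝓝[>] (0:ℝ), 0 < ε := eventually_mem_nhdsWithin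
      obtain ⟨ε, ⟨h1, h2⟩, h3⟩ := (((e1.and e2).filter_mono nhdsWithin_le_nhds).and e3).exists
      have hmem : x ∈ openSegment ℝ (x + ε • (x - y)) (x + ε • (-(x - y))) := by
        refine ⟨1/2, 1/2, by norm_num, by norm_num, by norm_num, ?_⟩
        simp only [smul_add, smul_neg]
        module
      have := hx.2 h1 h2 hmem
      have h4 : ε • (x - y) = 0 := by
        simpa using this
      rcases smul_eq_zero.1 h4 with h5 | h5
      · exact h3.ne' h5
      · exact hne (sub_eq_zero.1 h5)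
    have hmaps : Set.MapsTo act (P.extremePoints ℝ) (J.powerset : Set (Finset ι)) := by
      intro x _
      simp only [act, Finset.coe_powerset, Set.mem_preimage, Set.mem_powerset_iff,
        Finset.coe_subset]
      exact Finset.filter_subset _ _
    exact Set.Finite.of_injOn hmaps hinj (Finset.finite_toSet _)
  refine ⟨P.extremePoints ℝ, hfin, ?_⟩
  have := closure_convexHull_extremePoints hcomp hconv
  rw [(hfin.isClosed_convexHull ℝ).closure_eq] at this
  exact this.symm

/-- the candidate facets of a polyhedron -/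
def faceOf (P : Set F) (a : F) (b : ℝ) : Set F := {w ∈ P | ⟪a, w⟫_ℝ = b}

variable [FiniteDimensional ℝ F]

open Module in
/-- In an irredundant description (with an interior point `v`), each constraint gives a facet. -/
lemma faceOf_mem_facets {v : F} (hv : ∀ j ∈ J, ⟪a j, v⟫_ℝ < b j) {j : ι} (hj : j ∈ J)
    {y : F} (hy : b j < ⟪a j, y⟫_ℝ) (hy' : ∀ k ∈ J, k ≠ j → ⟪a k, y⟫_ℝ ≤ b k) :
    faceOf (polyhedron J a b) (a j) (b j) ∈ facetsOf (polyhedron J a b) ∧
    vectorSpan ℝ (faceOf (polyhedron J a b) (a j) (b j)) = (ℝ ∙ a j)ᗮ := by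
  classical
  set P := polyhedron J a b with hP
  have haj : a j ≠ 0 := by
    intro h
    have h1 := hv j hj
    rw [h, inner_zero_left] at h1 hy
    linarith
  -- crossing point
  set lam : ℝ := (b j - ⟪a j, v⟫_ℝ) / (⟪a j, y⟫_ℝ - ⟪a j, v⟫_ℝ) with hlam
  have hvj := hv j hj
  have hden : 0 < ⟪a j, y⟫_ℝ - ⟪a j, v⟫_ℝ := by linarith
  have hlam0 : 0 < lam := div_pos (by linarith) hden
  have hlam1 : lam < 1 := (div_lt_one hden).2 (by linarith)
  set z : F := v + lam • (y - v) with hz
  have hzj : ⟪a j, z⟫_ℝ = b j := by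
    rw [hz, inner_add_right, inner_smul_right, inner_sub_right, hlam]
    field_simp
    ring
  have hzk : ∀ k ∈ J, k ≠ j → ⟪a k, z⟫_ℝ < b k := by
    intro k hk hkj
    have h1 := hv k hk
    have h2 := hy' k hk hkj
    rw [hz, inner_add_right, inner_smul_right, inner_sub_right]
    nlinarith
  have hzP : z ∈ P := by
    intro k hk
    by_cases h : k = j
    · subst h; exact hzj.le
    · exact (hzk k hk h).le
  have hzF : z ∈ faceOf P (a j) (b j) := ⟨hzP, hzj⟩
  have hspan : vectorSpan ℝ (faceOf P (a j) (b j)) = (ℝ ∙ a j)ᗮ := by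
    apply le_antisymm
    · rw [vectorSpan_def, Submodule.span_le]
      rintro _ ⟨p, hp, q, hq, rfl⟩
      rw [SetLike.mem_coe, Submodule.mem_orthogonal_singleton_iff_inner_right]
      simp only [vsub_eq_sub]
      rw [inner_sub_right, hp.2, hq.2, sub_self]
    · intro u hu
      rw [Submodule.mem_orthogonal_singleton_iff_inner_right] at hu
      have e1 := eventually_mem_polyhedron J a b (x := z) (v := u) hzP (by
        intro k hk hkb
        by_cases h : k = j
        · subst h; exact hu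
        · exact absurd hkb (hzk k hk h).ne)
      have e3 : ∀ᶠ ε in 𝓝[>] (0:ℝ), 0 < ε := eventually_mem_nhdsWithin
      obtain ⟨ε, h1, h3⟩ := ((e1.filter_mono nhdsWithin_le_nhds).and e3).exists
      have hmem : z + ε • u ∈ faceOf P (a j) (b j) := by
        refine ⟨h1, ?_⟩
        rw [inner_add_right, inner_smul_right, hu, hzj]; simp
      have h5 : (z + ε • u) -ᵥ z ∈ vectorSpan ℝ (faceOf P (a j) (b j)) :=
        vsub_mem_vectorSpan ℝ hmem hzF
      have h6 : ε⁻¹ • ((z + ε • u) -ᵥ z) = u := by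
        rw [vsub_eq_sub, add_sub_cancel_left, smul_smul, inv_mul_cancel₀ h3.ne', one_smul]
      rw [← h6]
      exact Submodule.smul_mem _ _ h5
  refine ⟨⟨⟨z, hzF⟩, ?_, ?_⟩, hspan⟩
  · intro _
    refine ⟨innerSL ℝ (a j), ?_⟩
    ext w
    constructor
    · rintro ⟨hw, hwb⟩
      refine ⟨hw, fun x hx => ?_⟩
      simp only [innerSL_apply_apply]
      rw [hwb]; exact hx j hj
    · rintro ⟨hw, hwb⟩
      refine ⟨hw, le_antisymm (hw j hj) ?_⟩
      have := hwb z hzP
      simp only [innerSL_apply_apply] at this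
      rw [← hzj]; exact this
  · rw [hspan]
    have := Submodule.finrank_add_finrank_orthogonal (𝕜 := ℝ) (ℝ ∙ a j)
    rw [finrank_span_singleton haj] at this
    omega

omit [FiniteDimensional ℝ F] in
/-- a polyhedron has an irredundant description -/
lemma exists_irredundant [DecidableEq ι] :
    ∃ J' ⊆ J, polyhedron J' a b = polyhedron J a b ∧
      ∀ j ∈ J', ∃ y, b j < ⟪a j, y⟫_ℝ ∧ ∀ k ∈ J', k ≠ j → ⟪a k, y⟫_ℝ ≤ b k := by
  classical
  -- choose a subset of minimal cardinality
  have hne : (J.powerset.filter fun J' => polyhedron J' a b = polyhedron J a b).Nonempty :=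
    ⟨J, by simp⟩
  obtain ⟨J', hJ', hmin⟩ := Finset.exists_min_image _ Finset.card hne
  rw [Finset.mem_filter, Finset.mem_powerset] at hJ'
  refine ⟨J', hJ'.1, hJ'.2, fun j hj => ?_⟩
  by_contra hcon
  push Not at hcon
  have hsub : polyhedron (J'.erase j) a b = polyhedron J a b := by
    rw [← hJ'.2]
    ext y
    constructor
    · intro hy k hk
      by_cases h : k = j
      · subst h
        by_contra hlt
        push Not at hlt
        obtain ⟨k', hk', hne', hlt'⟩ := hcon y hlt
        exact absurd (hy k' (Finset.mem_erase.2 ⟨hne', hk'⟩)) (not_le.2 hlt')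
      · exact hy k (Finset.mem_erase.2 ⟨h, hk⟩)
    · intro hy k hk
      exact hy k (Finset.mem_of_mem_erase hk)
  have := hmin (J'.erase j) (by
    rw [Finset.mem_filter, Finset.mem_powerset]
    exact ⟨(Finset.erase_subset _ _).trans hJ'.1, hsub⟩)
  have h2 := Finset.card_erase_lt_of_mem hj
  omega

/-- every facet of a full dimensional polyhedron is one of the `faceOf`. -/
lemma facet_eq_faceOf {v : F} (hv : ∀ j ∈ J, ⟪a j, v⟫_ℝ < b j)
    (hfac : ∀ j ∈ J, vectorSpan ℝ (faceOf (polyhedron J a b) (a j) (b j)) = (ℝ ∙ a j)ᗮ)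
    {G : Set F} (hG : G ∈ facetsOf (polyhedron J a b)) :
    ∃ j ∈ J, G = faceOf (polyhedron J a b) (a j) (b j) := by
  classical
  set P := polyhedron J a b with hP
  obtain ⟨hne, hexp, hdim⟩ := hG
  obtain ⟨l, hl⟩ := hexp hne
  -- the functional is nonzero
  have hl0 : l ≠ 0 := by
    rintro rfl
    have hGP : G = P := by rw [hl]; ext w; simp
    -- vectorSpan P = ⊤
    have : vectorSpan ℝ G = ⊤ := by
      rw [eq_top_iff]
      intro u _
      have hvP : v ∈ P := fun j hj => (hv j hj).le
      have e1 := eventually_mem_polyhedron J a b (x := v) (v := u) hvP (by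
        intro k hk hkb
        exact absurd hkb (hv k hk).ne)
      have e3 : ∀ᶠ ε in 𝓝[>] (0:ℝ), 0 < ε := eventually_mem_nhdsWithin
      obtain ⟨ε, h1, h3⟩ := ((e1.filter_mono nhdsWithin_le_nhds).and e3).exists
      have h5 : (v + ε • u) -ᵥ v ∈ vectorSpan ℝ G := by
        rw [hGP]; exact vsub_mem_vectorSpan ℝ h1 hvP
      have h6 : ε⁻¹ • ((v + ε • u) -ᵥ v) = u := by
        rw [vsub_eq_sub, add_sub_cancel_left, smul_smul, inv_mul_cancel₀ h3.ne', one_smul]
      rw [← h6]
      exact Submodule.smul_mem _ _ h5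
    rw [this, finrank_top] at hdim
    omega
  have hGP : G ⊆ P := hexp.subset
  have hPconv : Convex ℝ P := convex_polyhedron J a b
  have hGconv : Convex ℝ G := hexp.convex hPconv
  -- some constraint is active on all of G
  have hact : ∃ j ∈ J, ∀ x ∈ G, ⟪a j, x⟫_ℝ = b j := by
    by_contra hcon
    push Not at hcon
    -- choose points
    choose! x hxG hxne using hcon
    -- a point of G strictly satisfying all constraints
    have hstrict : ∃ z ∈ G, ∀ j ∈ J, ⟪a j, z⟫_ℝ < b j := by
      rcases J.eq_empty_or_nonempty with hJ | hJ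
      · obtain ⟨z, hz⟩ := hne
        exact ⟨z, hz, by simp [hJ]⟩
      · set N : ℝ := (J.card : ℝ) with hN
        have hNpos : 0 < N := by
          rw [hN]; exact_mod_cast Finset.card_pos.2 hJ
        refine ⟨∑ j ∈ J, N⁻¹ • x j, ?_, ?_⟩
        · apply hGconv.sum_mem
          · intro i _; positivity
          · rw [Finset.sum_const, nsmul_eq_mul, mul_inv_cancel₀ hNpos.ne']
          · intro i hi; exact hxG i hi
        · intro j hj
          rw [inner_sum]
          have h1 : ∀ k ∈ J, ⟪a j, N⁻¹ • x k⟫_ℝ ≤ N⁻¹ * b j := by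
            intro k hk
            rw [inner_smul_right]
            have := hGP (hxG k hk) j hj
            gcongr
          have h2 : ⟪a j, N⁻¹ • x j⟫_ℝ < N⁻¹ * b j := by
            rw [inner_smul_right]
            have := lt_of_le_of_ne (hGP (hxG j hj) j hj) (hxne j hj)
            gcongr
          calc ∑ k ∈ J, ⟪a j, N⁻¹ • x k⟫_ℝ < ∑ k ∈ J, N⁻¹ * b j :=
                Finset.sum_lt_sum h1 ⟨j, hj, h2⟩
            _ = b j := by
                rw [Finset.sum_const, nsmul_eq_mul, ← mul_assoc, mul_inv_cancel₀ hNpos.ne',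
                  one_mul]
    obtain ⟨z, hzG, hz⟩ := hstrict
    -- move in direction where l increases
    obtain ⟨u, hu⟩ : ∃ u, 0 < l u := by
      by_contra h
      push Not at h
      apply hl0
      ext u
      have h1 := h u
      have h2 := h (-u)
      rw [map_neg] at h2
      simp only [_root_.zero_apply]
      linarith
    have e1 := eventually_mem_polyhedron J a b (x := z) (v := u) (hGP hzG) (by
      intro k hk hkb
      exact absurd hkb (hz k hk).ne)
    have e3 : ∀ᶠ ε in 𝓝[>] (0:ℝ), 0 < ε := eventually_mem_nhdsWithin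
    obtain ⟨ε, h1, h3⟩ := ((e1.filter_mono nhdsWithin_le_nhds).and e3).exists
    rw [hl] at hzG
    have := hzG.2 _ h1
    rw [map_add, map_smul, smul_eq_mul] at this
    have : 0 < ε * l u := mul_pos h3 hu
    linarith
  obtain ⟨j, hj, hjG⟩ := hact
  refine ⟨j, hj, ?_⟩
  have hsub : G ⊆ faceOf P (a j) (b j) := fun x hx => ⟨hGP hx, hjG x hx⟩
  have hle : vectorSpan ℝ G ≤ vectorSpan ℝ (faceOf P (a j) (b j)) := vectorSpan_mono ℝ hsub
  have haj : a j ≠ 0 := by
    intro h
    obtain ⟨x, hx⟩ := hne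
    have h1 := hjG x hx
    have h2 := hv j hj
    rw [h, inner_zero_left] at h1 h2
    linarith
  have hdim2 : Module.finrank ℝ (vectorSpan ℝ (faceOf P (a j) (b j))) + 1 = Module.finrank ℝ F := by
    rw [hfac j hj]
    have := Submodule.finrank_add_finrank_orthogonal (𝕜 := ℝ) (ℝ ∙ a j)
    rw [finrank_span_singleton haj] at this
    omega
  have heq : vectorSpan ℝ G = vectorSpan ℝ (faceOf P (a j) (b j)) :=
    Submodule.eq_of_le_of_finrank_eq hle (by omega)
  -- l vanishes on the vector span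
  have hlvan : ∀ u ∈ vectorSpan ℝ (faceOf P (a j) (b j)), l u = 0 := by
    intro u hu
    rw [← heq] at hu
    have : vectorSpan ℝ G ≤ LinearMap.ker (l : F →ₗ[ℝ] ℝ) := by
      rw [vectorSpan_def, Submodule.span_le]
      rintro _ ⟨p, hp, q, hq, rfl⟩
      simp only [vsub_eq_sub, SetLike.mem_coe, LinearMap.mem_ker, ContinuousLinearMap.coe_coe,
        map_sub]
      rw [hl] at hp hq
      have h1 := hp.2 q hq.1
      have h2 := hq.2 p hp.1
      linarith
    exact this hu
  apply Set.Subset.antisymm hsub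
  rintro x ⟨hxP, hxb⟩
  obtain ⟨x0, hx0⟩ := hne
  have h1 : x -ᵥ x0 ∈ vectorSpan ℝ (faceOf P (a j) (b j)) :=
    vsub_mem_vectorSpan ℝ ⟨hxP, hxb⟩ (hsub hx0)
  have h2 := hlvan _ h1
  rw [vsub_eq_sub, map_sub, sub_eq_zero] at h2
  rw [hl] at hx0 ⊢
  refine ⟨hxP, fun y hy => ?_⟩
  rw [h2]; exact hx0.2 y hy

/-- A polyhedron squeezed between two concentric balls has at least as many facets as there are
well separated directions. -/
theorem facets_ge {v : F} {r R : ℝ} (hr : 0 < r)
    (hin : closedBall v r ⊆ polyhedron J a b) (hout : polyhedron J a b ⊆ closedBall v R)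
    {m : ℕ} (u : Fin m → F) (hu : ∀ l, ‖u l‖ = 1)
    (hsep : ∀ l l', l ≠ l' → ∀ s ∈ Set.Icc r R, ∀ t ∈ Set.Icc r R,
      ‖(1/2:ℝ) • (s • u l + t • u l')‖ < r) :
    (facetsOf (polyhedron J a b)).Finite ∧ m ≤ (facetsOf (polyhedron J a b)).ncard := by
  classical
  obtain ⟨J', hJ'J, hJ'P, hirr⟩ := exists_irredundant J a b
  rw [← hJ'P] at hin hout ⊢
  clear hJ'P hJ'J
  set P := polyhedron J' a b with hP
  have hvP : v ∈ P := hin (mem_closedBall_self hr.le)
  have ha0 : ∀ j ∈ J', a j ≠ 0 := by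
    intro j hj h
    obtain ⟨y, hy, -⟩ := hirr j hj
    have := hvP j hj
    rw [h, inner_zero_left] at hy this
    linarith
  have hmargin : ∀ j ∈ J', ⟪a j, v⟫_ℝ + ‖a j‖ * r ≤ b j := by
    intro j hj
    have hnorm : 0 < ‖a j‖ := norm_pos_iff.2 (ha0 j hj)
    have hmem : v + (r / ‖a j‖) • a j ∈ closedBall v r := by
      rw [mem_closedBall, dist_eq_norm, add_sub_cancel_left, norm_smul, Real.norm_eq_abs,
        abs_of_pos (div_pos hr hnorm), div_mul_cancel₀ _ hnorm.ne']
    have := hin hmem j hj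
    rw [inner_add_right, inner_smul_right, real_inner_self_eq_norm_sq] at this
    have h2 : r / ‖a j‖ * ‖a j‖ ^ 2 = ‖a j‖ * r := by field_simp
    linarith
  have hstrict : ∀ w, ‖w - v‖ < r → ∀ j ∈ J', ⟪a j, w⟫_ℝ < b j := by
    intro w hw j hj
    have hnorm : 0 < ‖a j‖ := norm_pos_iff.2 (ha0 j hj)
    have h1 : ⟪a j, w⟫_ℝ = ⟪a j, v⟫_ℝ + ⟪a j, w - v⟫_ℝ := by
      rw [inner_sub_right]; ring
    have h2 : ⟪a j, w - v⟫_ℝ ≤ ‖a j‖ * ‖w - v‖ := real_inner_le_norm _ _
    have h3 : ‖a j‖ * ‖w - v‖ < ‖a j‖ * r := by gcongr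
    have := hmargin j hj
    linarith
  have hv : ∀ j ∈ J', ⟪a j, v⟫_ℝ < b j := hstrict v (by simpa using hr)
  have hface : ∀ j ∈ J', faceOf P (a j) (b j) ∈ facetsOf P ∧
      vectorSpan ℝ (faceOf P (a j) (b j)) = (ℝ ∙ a j)ᗮ := by
    intro j hj
    obtain ⟨y, hy, hy'⟩ := hirr j hj
    exact faceOf_mem_facets J' a b hv hj hy hy'
  have hfin : (facetsOf P).Finite := by
    have hsub : facetsOf P ⊆ (fun j => faceOf P (a j) (b j)) '' (J' : Set ι) := by
      intro G hG
      obtain ⟨j, hj, rfl⟩ := facet_eq_faceOf J' a b hv (fun j hj => (hface j hj).2) hG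
      exact ⟨j, hj, rfl⟩
    exact (J'.finite_toSet.image _).subset hsub
  refine ⟨hfin, ?_⟩
  -- boundary points
  have hpt : ∀ l : Fin m, ∃ s ∈ Set.Icc r R, v + s • u l ∈ P ∧
      ∃ j ∈ J', ⟪a j, v + s • u l⟫_ℝ = b j := by
    intro l
    set S : Set ℝ := {s | s ∈ Set.Icc (0:ℝ) R ∧ v + s • u l ∈ P} with hS
    have hrR : r ≤ R := by
      have h1 : v + r • u l ∈ closedBall v r := by
        rw [mem_closedBall, dist_eq_norm, add_sub_cancel_left, norm_smul, hu l,
          Real.norm_eq_abs, abs_of_pos hr, mul_one]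
      have h2 := hout (hin h1)
      rw [mem_closedBall, dist_eq_norm, add_sub_cancel_left, norm_smul, hu l,
          Real.norm_eq_abs, abs_of_pos hr, mul_one] at h2
      exact h2
    have hrS : r ∈ S := by
      refine ⟨⟨hr.le, hrR⟩, hin ?_⟩
      rw [mem_closedBall, dist_eq_norm, add_sub_cancel_left, norm_smul, hu l,
          Real.norm_eq_abs, abs_of_pos hr, mul_one]
    have hScomp : IsCompact S := by
      have hcl : IsClosed {s : ℝ | v + s • u l ∈ P} :=
        (isClosed_polyhedron J' a b).preimage (by fun_prop : Continuous fun s : ℝ => v + s • u l)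
      exact (isCompact_Icc (a := (0:ℝ)) (b := R)).inter_right hcl
    obtain ⟨s, hsS, hmax⟩ := hScomp.exists_isMaxOn ⟨r, hrS⟩ continuousOn_id
    have hrs : r ≤ s := hmax hrS
    refine ⟨s, ⟨hrs, hsS.1.2⟩, hsS.2, ?_⟩
    by_contra hcon
    push Not at hcon
    have e1 := eventually_mem_polyhedron J' a b (x := v + s • u l) (v := u l) hsS.2 (by
      intro k hk hkb
      exact absurd hkb (hcon k hk))
    have e3 : ∀ᶠ ε in 𝓝[>] (0:ℝ), 0 < ε := eventually_mem_nhdsWithin
    obtain ⟨ε, h1, h3⟩ := ((e1.filter_mono nhdsWithin_le_nhds).and e3).exists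
    have h4 : v + s • u l + ε • u l = v + (s + ε) • u l := by module
    rw [h4] at h1
    have h5 : s + ε ≤ R := by
      have := hout h1
      rw [mem_closedBall, dist_eq_norm, add_sub_cancel_left, norm_smul, hu l,
          Real.norm_eq_abs, mul_one] at this
      exact (le_abs_self _).trans this
    have h6 : s + ε ∈ S := ⟨⟨by linarith, h5⟩, h1⟩
    have := hmax h6
    simp only [id_eq, Set.mem_ofPred_eq] at this
    linarith
  choose s hs hsP j hj hsj using hpt
  have hdiff : ∀ l l', l ≠ l' → ⟪a (j l'), v + s l • u l⟫_ℝ ≠ b (j l') := by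
    intro l l' hne heq
    have h1 := hsep l l' hne (s l) (hs l) (s l') (hs l')
    have h2 := hstrict (v + (1/2:ℝ) • (s l • u l + s l' • u l')) (by
      rw [add_sub_cancel_left]; exact h1) (j l') (hj l')
    have h3 : v + (1/2:ℝ) • (s l • u l + s l' • u l') =
      (1/2:ℝ) • (v + s l • u l) + (1/2:ℝ) • (v + s l' • u l') := by module
    rw [h3, inner_add_right, inner_smul_right, inner_smul_right, heq, hsj l'] at h2
    linarith
  let f : Fin m → Set F := fun l => faceOf P (a (j l)) (b (j l))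
  have hfinj : Function.Injective f := by
    intro l l' hll'
    by_contra hne
    have h1 : v + s l • u l ∈ f l := ⟨hsP l, hsj l⟩
    rw [hll'] at h1
    exact hdiff l l' hne h1.2
  have hsub : Set.range f ⊆ facetsOf P := by
    rintro _ ⟨l, rfl⟩
    exact (hface (j l) (hj l)).1
  calc m = (Set.range f).ncard := by
        rw [← Set.image_univ, Set.ncard_image_of_injective _ hfinj, Set.ncard_univ]; simp
    _ ≤ (facetsOf P).ncard := Set.ncard_le_ncard hsub hfin

end

end Pool.Agent.H.MP_f78535_pr
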