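import Pool.Agent.H.MP_f78535_pr.AS

set_option autoImplicit false

open Set Filter MeasureTheory ProbabilityTheory Metric
open scoped Topology ENNReal Nat

namespace Pool.Agent.H.MP_f78535_pr

variable {Ω : Type*} [MeasurableSpace Ω] {P : Measure Ω} [IsProbabilityMeasure P]
  {d : ℕ} {β γ c : ℝ} {X : ℕ → Ω → E d × ℝ}

lemma event_sub (hd : 2 ≤ d) (hβ : (d:ℝ) / 2 + 1 < β) (hK : 0 < γ * c)
    (h : IsPoissonProcess X (intensity d β γ c) P) {B : Set (E d)} {R0 : ℝ}
    (hR0 : ∀ v ∈ B, ‖v‖ ≤ R0) {m : ℕ} (hm : 0 < m) {H K : ℝ} (hK0 : 0 < K)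
    (hHK : 16 * (m:ℝ) ^ 2 * K < H) :
    ∀ᵐ w ∂P, count X {x : E d × ℝ | x.1 ∈ B ∧ H < -x.2 ∧ -x.2 ≤ 2 * H} w = 1 →
      count X (region d K (R0 + Real.sqrt (2 * H)) \
        {x : E d × ℝ | x.1 ∈ B ∧ H < -x.2 ∧ -x.2 ≤ 2 * H}) w = 0 →
      ∃ i n, m ≤ n ∧ (X i w).1 ∈ B ∧
        (laguerreCell (Set.range fun j => X j w) (X i w)).Nonempty ∧
        IsPolytopeWithFacets n (laguerreCell (Set.range fun j => X j w) (X i w)) := by
  filter_upwards [cover_ae hβ hK h, neg_ae h, locfin_ae hβ hK h] with w hw1 hw2 hw3 hA hF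
  rw [count, Set.encard_eq_one] at hA
  obtain ⟨i, hi⟩ := hA
  have hiA : X i w ∈ {x : E d × ℝ | x.1 ∈ B ∧ H < -x.2 ∧ -x.2 ≤ 2 * H} := by
    have : i ∈ ({i} : Set ℕ) := rfl
    rw [← hi] at this; exact this
  have hother : ∀ j, j ≠ i → X j w ∉ region d K (R0 + Real.sqrt (2 * H)) := by
    intro j hj hjF
    rw [count, Set.encard_eq_zero, Set.eq_empty_iff_forall_notMem] at hF
    refine hF j ⟨hjF, fun hjA => hj ?_⟩
    have : j ∈ ({i} : Set ℕ) := by rw [← hi]; exact hjA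
    exact this
  have hfr : 2 ≤ Module.finrank ℝ (E d) := by rw [finrank_euclideanSpace_fin]; exact hd
  have hgeo := cell_geometry hfr (Set.range fun j => X j w) (X i w) ⟨i, rfl⟩ hm hK0
    (hHK.trans hiA.2.1) ?_ ?_ ?_
  · obtain ⟨h1, h2, h3⟩ := hgeo
    refine ⟨i, (facetsOf (laguerreCell (Set.range fun j => X j w) (X i w))).ncard, h3, hiA.1,
      ?_, h1, (Set.Finite.cast_ncard_eq h2).symm⟩
    by_contra hempty
    rw [Set.not_nonempty_iff_eq_empty] at hempty
    rw [hempty] at h3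
    have : (facetsOf (∅ : Set (E d))) = ∅ := by
      rw [Set.eq_empty_iff_forall_notMem]
      intro G hG
      obtain ⟨x, hx⟩ := hG.1
      exact (hG.2.1.subset hx).elim
    rw [this, Set.ncard_empty] at h3
    omega
  · rintro _ ⟨j, rfl⟩ hj
    have hji : j ≠ i := fun h => hj (by rw [h])
    have hneg := hw2 j
    refine ⟨by linarith, ?_⟩
    by_contra hcon
    push Not at hcon
    apply hother j hji
    refine ⟨hcon.1, ?_⟩
    have h1 : Real.sqrt (-(X i w).2) ≤ Real.sqrt (2 * H) := Real.sqrt_le_sqrt hiA.2.2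
    have h2 : ‖(X j w).1‖ ≤ ‖(X j w).1 - (X i w).1‖ + ‖(X i w).1‖ := by
      have : (X j w).1 = ((X j w).1 - (X i w).1) + (X i w).1 := by abel
      calc ‖(X j w).1‖ = ‖((X j w).1 - (X i w).1) + (X i w).1‖ := by rw [← this]
        _ ≤ _ := norm_add_le _ _
    have h3 := hR0 _ hiA.1
    linarith [hcon.2]
  · intro x
    obtain ⟨j, hj⟩ := hw1 x
    exact ⟨X j w, ⟨j, rfl⟩, hj⟩
  · intro ε hε ρ
    refine ((hw3 ε hε ρ).image fun j => X j w).subset ?_
    rintro _ ⟨⟨j, rfl⟩, hj⟩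
    exact ⟨j, hj, rfl⟩

/-- polynomial lower bound on the tail of the facet number -/
theorem tail_lower (hd : 2 ≤ d) (hβ : (d:ℝ) / 2 + 1 < β) (hK : 0 < γ * c)
    (h : IsPoissonProcess X (intensity d β γ c) P) {B : Set (E d)} (hB : MeasurableSet B)
    (hBb : Bornology.IsBounded B) (hB0 : volume B ≠ 0) :
    ∃ a : ℝ, 0 < a ∧ ∃ N : ℕ, ∀ m : ℕ, 0 < m →
      ENNReal.ofReal (a / (m:ℝ) ^ N) ≤ ∑' k, meanFacetCells P X B (m + k) := by
  have hd0 : (0:ℝ) < d := by exact_mod_cast (by omega : 0 < d)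
  have hβ1 : 0 < β - 1 := by linarith [show (0:ℝ) ≤ (d:ℝ)/2 by positivity]
  have hβ0 : 0 < β := by linarith
  obtain ⟨R0, hR00, hR0⟩ : ∃ R0 : ℝ, 0 ≤ R0 ∧ ∀ v ∈ B, ‖v‖ ≤ R0 := by
    obtain ⟨r, hr⟩ := hBb.exists_norm_le
    exact ⟨max r 0, le_max_right _ _, fun v hv => (hr v hv).trans (le_max_left _ _)⟩
  obtain ⟨C, hC, hreg⟩ := region_le d β γ c hβ hK
  set θ : ℝ := (d:ℝ) / (2 * (β - 1)) with hθ
  have hθ0 : 0 < θ := by positivity
  have hθ1 : θ < 1 := by rw [hθ, div_lt_one (by positivity)]; linarith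
  have hθβ : θ * (1 - β) = -((d:ℝ)/2) := by
    rw [hθ]; field_simp; ring
  set C3 : ℝ := C * ((R0 + 2) ^ d + 1) with hC3
  have hC30 : 0 < C3 := by positivity
  have hBtop : volume B ≠ ⊤ := hBb.measure_lt_top.ne
  set vB := (volume B).toReal with hvB
  have hvB0 : 0 < vB := ENNReal.toReal_pos hB0 hBtop
  set p : ℝ := (β - 1) / (1 - θ) with hp
  have hp0 : 0 < p := div_pos hβ1 (by linarith)
  obtain ⟨N0, hN0⟩ := exists_nat_ge p
  refine ⟨γ * c * 2 ^ (-β) * vB * Real.exp (-(2 * C3)) / 17 ^ N0, by positivity, 2 * N0, ?_⟩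
  intro m hm
  have hm0 : (0:ℝ) < m := by exact_mod_cast hm
  have hm1 : (1:ℝ) ≤ m := by exact_mod_cast hm
  set M : ℝ := 17 * (m:ℝ) ^ 2 with hM
  have hM1 : 1 ≤ M := by nlinarith
  have hM0 : 0 < M := by linarith
  set H : ℝ := M ^ (1 / (1 - θ)) with hH
  have h1θ : 0 < 1 - θ := by linarith
  have hH1 : 1 ≤ H := Real.one_le_rpow hM1 (by positivity)
  have hH0 : 0 < H := by linarith
  set K : ℝ := H ^ θ with hKdef
  have hK1 : 1 ≤ K := Real.one_le_rpow hH1 hθ0.le
  have hK0 : 0 < K := by linarith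
  have hHK1 : K * M = H := by
    have : M = H ^ (1 - θ) := by
      rw [hH, ← Real.rpow_mul hM0.le, one_div, inv_mul_cancel₀ h1θ.ne', Real.rpow_one]
    rw [this, hKdef, ← Real.rpow_add hH0]
    have : θ + (1 - θ) = 1 := by ring
    rw [this, Real.rpow_one]
  have hHK : 16 * (m:ℝ) ^ 2 * K < H := by
    rw [← hHK1, hM]
    have : 0 < (m:ℝ)^2 * K := by positivity
    nlinarith
  have hKH : K ≤ H := by
    rw [← hHK1]; nlinarith
  set A : Set (E d × ℝ) := {x : E d × ℝ | x.1 ∈ B ∧ H < -x.2 ∧ -x.2 ≤ 2 * H} with hA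
  have hAm : MeasurableSet A := measurableSet_slab' d hB _ _
  set ρ := R0 + Real.sqrt (2 * H) with hρ
  have hρ0 : 0 ≤ ρ := by positivity
  set F := region d K ρ with hF
  have hFm : MeasurableSet F := measurableSet_region d _ _
  have hAF : A ⊆ F := by
    intro x hx
    refine ⟨by have := hx.2.1; linarith, ?_⟩
    have h1 := hR0 _ hx.1
    have h2 := Real.sqrt_nonneg (2 * H)
    have h3 := Real.sqrt_nonneg (-x.2)
    rw [hρ]; linarith
  have hμF : intensity d β γ c F ≤ ENNReal.ofReal C3 := by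
    refine (hreg K ρ hK0 hρ0).trans (ENNReal.ofReal_le_ofReal ?_)
    rw [hC3]
    have h1 : ρ ^ d * K ^ (1 - β) ≤ (R0 + 2) ^ d := by
      have h2 : ρ ≤ (R0 + 2) * Real.sqrt H := by
        have h3 : Real.sqrt (2 * H) ≤ 2 * Real.sqrt H := by
          rw [Real.sqrt_mul (by norm_num)]
          gcongr
          rw [Real.sqrt_le_left (by norm_num)]
          norm_num
        have h4 : 1 ≤ Real.sqrt H := by
          rw [Real.one_le_sqrt]; exact hH1
        rw [hρ]; nlinarith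
      have h5 : K ^ (1 - β) = (Real.sqrt H ^ d)⁻¹ := by
        rw [hKdef, ← Real.rpow_mul hH0.le, hθβ, Real.rpow_neg hH0.le, Real.sqrt_eq_rpow,
          ← Real.rpow_natCast, ← Real.rpow_mul hH0.le]
        congr 2; ring
      rw [h5]
      have h6 : 0 < Real.sqrt H := Real.sqrt_pos.2 hH0
      calc ρ ^ d * (Real.sqrt H ^ d)⁻¹ ≤ ((R0 + 2) * Real.sqrt H) ^ d * (Real.sqrt H ^ d)⁻¹ := by
            gcongr
        _ = (R0 + 2) ^ d := by
            rw [mul_pow, mul_assoc, mul_inv_cancel₀ (by positivity), mul_one]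
    have h7 : K ^ ((d:ℝ) / 2 + 1 - β) ≤ 1 := Real.rpow_le_one_of_one_le_of_nonpos hK1 (by linarith)
    gcongr
  have hμFtop : intensity d β γ c F ≠ ⊤ := (hμF.trans_lt ENNReal.ofReal_lt_top).ne
  have hμAF : intensity d β γ c A ≤ intensity d β γ c F := measure_mono hAF
  have hμDF : intensity d β γ c (F \ A) ≤ intensity d β γ c F := measure_mono sdiff_subset
  have hμAtop : intensity d β γ c A ≠ ⊤ := (hμAF.trans_lt (lt_top_iff_ne_top.2 hμFtop)).ne
  have hμDtop : intensity d β γ c (F \ A) ≠ ⊤ := (hμDF.trans_lt (lt_top_iff_ne_top.2 hμFtop)).ne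
  have hμA3 : (intensity d β γ c A).toReal ≤ C3 := by
    refine ENNReal.toReal_le_of_le_ofReal hC30.le (hμAF.trans hμF)
  have hμD3 : (intensity d β γ c (F \ A)).toReal ≤ C3 := by
    refine ENNReal.toReal_le_of_le_ofReal hC30.le (hμDF.trans hμF)
  have hμAlow : γ * c * H * (2 * H) ^ (-β) * vB ≤ (intensity d β γ c A).toReal := by
    have h1 := slab_ge d β γ c hβ0 hK hB (a := H) (b := 2 * H) hH0 (by linarith)
    have h2 : 2 * H - H = H := by ring
    rw [h2, ← ENNReal.ofReal_toReal hBtop, ← hvB, ← ENNReal.ofReal_mul (by positivity)] at h1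
    exact (ENNReal.ofReal_le_iff_le_toReal hμAtop).1 h1
  -- probability of the event
  have hprob : P ({w | count X A w = 1} ∩ {w | count X (F \ A) w = 0}) =
      ENNReal.ofReal ((intensity d β γ c A).toReal * Real.exp (-(intensity d β γ c A).toReal) *
        Real.exp (-(intensity d β γ c (F \ A)).toReal)) := by
    have hind := h.indepFun_count hAm (hFm.diff hAm) disjoint_sdiff_self_right
    have h1 := hind.measure_inter_preimage_eq_mul {1} {0} (measurableSet_singleton _)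
      (measurableSet_singleton _)
    have h2 : P (count X A ⁻¹' {1}) = _ := h.law A hAm hμAtop 1
    have h3 : P (count X (F \ A) ⁻¹' {0}) = _ := h.law (F \ A) (hFm.diff hAm) hμDtop 0
    rw [h2, h3] at h1
    refine h1.trans ?_
    rw [← ENNReal.ofReal_mul (by positivity)]
    congr 1
    simp
    ring
  have hlow : ENNReal.ofReal (γ * c * 2 ^ (-β) * vB * Real.exp (-(2 * C3)) / 17 ^ N0 /
      (m:ℝ) ^ (2 * N0)) ≤ P ({w | count X A w = 1} ∩ {w | count X (F \ A) w = 0}) := by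
    rw [hprob]
    apply ENNReal.ofReal_le_ofReal
    have h1 : Real.exp (-(2 * C3)) ≤ Real.exp (-(intensity d β γ c A).toReal) *
        Real.exp (-(intensity d β γ c (F \ A)).toReal) := by
      rw [← Real.exp_add, Real.exp_le_exp]; linarith
    have h2 : 1 / (17 ^ N0 * (m:ℝ) ^ (2 * N0)) ≤ H ^ (1 - β) := by
      have h3 : H ^ (1 - β) = M ^ (-p) := by
        rw [hH, ← Real.rpow_mul hM0.le, hp]
        congr 1
        field_simp
        ring
      rw [h3, Real.rpow_neg hM0.le, one_div]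
      gcongr
      calc M ^ p ≤ M ^ (N0:ℝ) := Real.rpow_le_rpow_of_exponent_le hM1 hN0
        _ = 17 ^ N0 * (m:ℝ) ^ (2 * N0) := by
          rw [Real.rpow_natCast, hM, mul_pow, ← pow_mul]
    have h4 : H * (2 * H) ^ (-β) = 2 ^ (-β) * H ^ (1 - β) := by
      rw [Real.mul_rpow (by norm_num) hH0.le, sub_eq_add_neg, Real.rpow_add hH0, Real.rpow_one]
      ring
    calc γ * c * 2 ^ (-β) * vB * Real.exp (-(2 * C3)) / 17 ^ N0 / (m:ℝ) ^ (2 * N0)
        = (γ * c * 2 ^ (-β) * (1 / (17 ^ N0 * (m:ℝ) ^ (2 * N0))) * vB) * Real.exp (-(2 * C3)) := by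
          field_simp
      _ ≤ (γ * c * 2 ^ (-β) * H ^ (1 - β) * vB) * (Real.exp (-(intensity d β γ c A).toReal) *
        Real.exp (-(intensity d β γ c (F \ A)).toReal)) := by gcongr
      _ = (γ * c * H * (2 * H) ^ (-β) * vB) * (Real.exp (-(intensity d β γ c A).toReal) *
        Real.exp (-(intensity d β γ c (F \ A)).toReal)) := by
          rw [mul_assoc (γ * c) H, h4]; ring
      _ ≤ (intensity d β γ c A).toReal * (Real.exp (-(intensity d β γ c A).toReal) *
        Real.exp (-(intensity d β γ c (F \ A)).toReal)) := by gcongr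
      _ = _ := by ring
  refine hlow.trans ?_
  have hsub : ∀ᵐ w ∂P, w ∈ {w | count X A w = 1} ∩ {w | count X (F \ A) w = 0} →
      w ∈ ⋃ k : ℕ, ⋃ i : ℕ, {w | (X i w).1 ∈ B ∧
        (laguerreCell (Set.range fun j => X j w) (X i w)).Nonempty ∧
        IsPolytopeWithFacets (m + k) (laguerreCell (Set.range fun j => X j w) (X i w))} := by
    filter_upwards [event_sub hd hβ hK h hR0 hm hK0 hHK] with w hw
    rintro ⟨h1, h2⟩
    obtain ⟨i, n, hmn, h3, h4, h5⟩ := hw h1 h2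
    obtain ⟨k, rfl⟩ := Nat.exists_eq_add_of_le hmn
    exact mem_iUnion.2 ⟨k, mem_iUnion.2 ⟨i, h3, h4, h5⟩⟩
  refine (measure_mono_ae hsub).trans ?_
  refine (measure_iUnion_le _).trans ?_
  exact ENNReal.tsum_le_tsum fun k => measure_iUnion_le _

end Pool.Agent.H.MP_f78535_pr
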